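import Pool.Agent.R647.SS.Pack

/-!
# Rank one perturbations of scalar matrices: changing the content by a divisor of `μ`
-/

set_option autoImplicit false

namespace Pool.Agent.N447.SS

open Matrix Pool.Agent.TH441.SSE2 Pool.Agent.R647.SS

/-- The canonical vector with content `g` and sum `N`. -/
def cv (m : ℕ) (g N : ℤ) : Fin (m + 3) → ℤ := fun i => if i = 0 then N - (m + 2) * g else g

/-- The canonical matrix with content `g`. -/
def cm (m : ℕ) (μ N g : ℤ) : Matrix (Fin (m + 3)) (Fin (m + 3)) ℤ := M μ (fun _ => 1) (cv m g N)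

/-- The vector `(1, r, …, r)`. -/
def ru (m : ℕ) (r : ℤ) : Fin (m + 3) → ℤ := fun i => if i = 0 then 1 else r

/-- The vector `(N - (m + 2) g r, g, …, g)`. -/
def rv (m : ℕ) (g r N : ℤ) : Fin (m + 3) → ℤ := fun i => if i = 0 then N - (m + 2) * (g * r) else g

lemma sum_cv (m : ℕ) (g N : ℤ) : ∑ i, cv m g N i = N := by
  rw [Fin.sum_univ_succ]
  have e : ∀ i : Fin (m + 2), cv m g N i.succ = g := fun i => by
    rw [cv, if_neg (Fin.succ_ne_zero i)]
  rw [Finset.sum_congr rfl (fun i _ => e i), Finset.sum_const, Finset.card_univ,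
    Fintype.card_fin, nsmul_eq_mul]
  simp only [cv, if_pos]
  push_cast
  ring

lemma dt_cv (m : ℕ) (g N : ℤ) : dt (fun _ => 1) (cv m g N) = N := by
  simp only [dt, one_mul]
  exact sum_cv m g N

lemma dt_rv (m : ℕ) (g r N : ℤ) : dt (ru m r) (rv m g r N) = N := by
  rw [dt, Fin.sum_univ_succ]
  have e : ∀ i : Fin (m + 2), ru m r i.succ * rv m g r N i.succ = g * r := fun i => by
    rw [ru, rv, if_neg (Fin.succ_ne_zero i), if_neg (Fin.succ_ne_zero i)]; ring
  rw [Finset.sum_congr rfl (fun i _ => e i), Finset.sum_const, Finset.card_univ,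
    Fintype.card_fin, nsmul_eq_mul]
  simp only [ru, rv, if_pos]
  push_cast
  ring

lemma cont_cv (m : ℕ) {g N : ℤ} (hg : g ∣ N) (c : ℤ) :
    Cont (fun _ => 1) (cv m g N) c ↔ c ∣ g := by
  constructor
  · intro h
    have := h 0 1
    rwa [one_mul, cv, if_neg n10] at this
  · intro h i j
    rw [one_mul, cv]
    split_ifs
    · exact dvd_sub (h.trans hg) (h.mul_left _)
    · exact h

lemma cont_rv (m : ℕ) {g r N : ℤ} (hg : g ∣ N) (c : ℤ) :
    Cont (ru m r) (rv m g r N) c ↔ c ∣ g := by
  constructor
  · intro h
    have := h 0 1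
    rwa [ru, rv, if_pos rfl, if_neg n10, one_mul] at this
  · intro h i j
    refine Dvd.dvd.mul_left ?_ _
    rw [rv]
    split_ifs
    · exact dvd_sub (h.trans hg) ((h.mul_right r).mul_left _)
    · exact h

/-- The elementary equivalence which multiplies the content by `r`. -/
lemma dstep (m : ℕ) {μ g r N : ℤ} (hr : 1 ≤ r) (hrμ : r ∣ μ) (hg : 0 ≤ g)
    (h0 : 0 ≤ N - (m + 2) * (g * r)) (h1 : 0 ≤ μ / r + g)
    (h2 : 0 ≤ μ + (N - (m + 2) * (g * r))) :
    Q (M μ (ru m r) (rv m g r N)) (cm m μ N (g * r)) := by
  obtain ⟨k, hk⟩ := hrμ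
  have hk' : μ / r = k := by rw [hk]; exact Int.mul_ediv_cancel_left k (by linarith)
  rw [hk'] at h1
  let R : Matrix (Fin (m + 3)) (Fin (m + 3)) ℤ := fun a b =>
    if a = b then (if a = 0 then 1 else r) else 0
  let S : Matrix (Fin (m + 3)) (Fin (m + 3)) ℤ := fun a b =>
    (if a = b then (if a = 0 then μ else k) else 0) + rv m g r N b
  refine Q.of_elem R S ?_ ?_ ?_ ?_
  · intro a b
    simp only [R]
    split_ifs <;> linarith
  · intro a b
    simp only [S, rv]
    by_cases hab : a = b
    · subst hab
      by_cases ha : a = 0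
      · subst ha
        simp only [if_true]
        exact h2
      · simp only [if_true, if_neg ha]
        exact h1
    · rw [if_neg hab, zero_add]
      split_ifs
      · exact h0
      · exact hg
  · ext a b
    rw [Matrix.mul_apply]
    have e1 : ∀ x, R a x * S x b = if a = x then (if a = 0 then 1 else r) * S x b else 0 := by
      intro x
      simp only [R]
      rw [ite_mul, zero_mul]
    rw [Finset.sum_congr rfl (fun x _ => e1 x), Finset.sum_ite_eq, if_pos (Finset.mem_univ a)]
    simp only [M, S, ru]
    by_cases ha : a = 0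
    · subst ha
      by_cases hb : (0 : Fin (m + 3)) = b
      · simp only [if_pos hb, if_pos]
        ring
      · simp only [if_neg hb, if_pos]
        ring
    · by_cases hab : a = b
      · simp only [if_pos hab, if_neg ha]
        rw [hk]; ring
      · simp only [if_neg hab, if_neg ha]
        ring
  · ext a b
    rw [Matrix.mul_apply]
    have e1 : ∀ x, S a x * R x b = if x = b then S a x * (if x = 0 then 1 else r) else 0 := by
      intro x
      simp only [R]
      rw [mul_ite, mul_zero]
    rw [Finset.sum_congr rfl (fun x _ => e1 x), Finset.sum_ite_eq', if_pos (Finset.mem_univ b)]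
    simp only [cm, M, S, cv, rv, one_mul]
    by_cases hb : b = 0
    · subst hb
      by_cases ha : a = 0
      · simp only [ha, if_true]
        ring
      · simp only [if_neg ha, if_true]
        ring
    · by_cases hab : a = b
      · have ha : a ≠ 0 := fun h => hb (hab ▸ h)
        simp only [if_pos hab, if_neg ha, if_neg hb]
        rw [hk]; ring
      · simp only [if_neg hab, if_neg hb]
        ring

/-- Connectivity between contents, in an abstract form. -/
lemma path {μ : ℤ} {N : ℤ} (P : ℕ → Prop) (E : ℕ → ℕ → Prop) (hr : ∀ g, E g g)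
    (hs : ∀ g h, E g h → E h g) (ht : ∀ f g h, E f g → E g h → E f h)
    (hstep : ∀ g r : ℕ, P g → P (g * r) → r.Prime → (r : ℤ) ∣ μ → E g (g * r))
    (hconv : ∀ x y z, x ∣ y → y ∣ z → P x → P z → P y)
    (hmove : ∀ x r r' : ℕ, r.Prime → r'.Prime → r ≠ r' → (r : ℤ) ∣ μ → (r' : ℤ) ∣ μ →
      P (x * r') → ((x * r' * r : ℕ) : ℤ) ∣ N → P (x * r' * r) ∨ P x) (k : ℕ) :
    ∀ d a b : ℕ, a * b ≤ k → 0 < a → 0 < b → 0 < d → a.Coprime b →
      (∀ p : ℕ, p.Prime → p ∣ a * b → (p : ℤ) ∣ μ) → ((d * (a * b) : ℕ) : ℤ) ∣ N →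
      P (d * a) → P (d * b) → E (d * a) (d * b) := by
  induction k with
  | zero =>
    intro d a b h ha hb
    have := Nat.mul_pos ha hb
    omega
  | succ k ih =>
    intro d a b hk ha hb hd hco hp hN hPa hPb
    by_cases ha1 : a = 1
    · subst ha1
      by_cases hb1 : b = 1
      · subst hb1; exact hr _
      · obtain ⟨r, hrp, b', rfl⟩ := Nat.exists_prime_and_dvd hb1
        have hb' : 0 < b' := Nat.pos_of_mul_pos_left hb |> fun h => by
          rcases Nat.eq_zero_or_pos b' with h0 | h0
          · subst h0; simp at hb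
          · exact h0
        have e : d * (r * b') = d * b' * r := by ring
        have hP' : P (d * b') := hconv (d * 1) (d * b') (d * (r * b'))
          ⟨b', by ring⟩ ⟨r, by ring⟩ hPa hPb
        have hlt : 1 * b' ≤ k := by
          have h2 := hrp.two_le
          have : 2 * b' ≤ r * b' := Nat.mul_le_mul_right _ h2
          omega
        have q1 := ih d 1 b' hlt one_pos hb' hd (Nat.coprime_one_left _)
          (fun p pp hpd => hp p pp (by
            rw [one_mul] at hpd ⊢
            exact hpd.mul_left _)) ((by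
              refine Dvd.dvd.trans ?_ hN
              exact_mod_cast (⟨r, by ring⟩ : d * (1 * b') ∣ d * (1 * (r * b'))))) hPa hP'
        refine ht _ _ _ q1 ?_
        rw [e]
        exact hstep _ _ hP' (e ▸ hPb) hrp (hp r hrp (by rw [one_mul]; exact Nat.dvd_mul_right _ _))
    · obtain ⟨r', hrp', a', rfl⟩ := Nat.exists_prime_and_dvd ha1
      have ha' : 0 < a' := by
        rcases Nat.eq_zero_or_pos a' with h0 | h0
        · subst h0; simp at ha
        · exact h0
      have ea : d * (r' * a') = d * a' * r' := by ring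
      have hr'μ : (r' : ℤ) ∣ μ := hp r' hrp' (by
        rw [mul_assoc]; exact Nat.dvd_mul_right _ _)
      -- going down from `d * a` to `d * a'`
      have hdown : P (d * a') → E (d * (r' * a')) (d * b) := by
        intro hP'
        have hlt : a' * b ≤ k := by
          have h2 := hrp'.two_le
          have : 2 * (a' * b) ≤ r' * (a' * b) := Nat.mul_le_mul_right _ h2
          have h3 : 0 < a' * b := Nat.mul_pos ha' hb
          have h4 : r' * (a' * b) = r' * a' * b := by ring
          omega
        have q1 := ih d a' b hlt ha' hb hd (Nat.Coprime.coprime_dvd_left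
          (Nat.dvd_mul_left _ _) hco) (fun p pp hpd => hp p pp (by
            rw [mul_assoc]; exact hpd.mul_left _)) ((by
              refine Dvd.dvd.trans ?_ hN
              exact_mod_cast (⟨r', by ring⟩ : d * (a' * b) ∣ d * (r' * a' * b)))) hP' hPb
        refine ht _ _ _ ?_ q1
        rw [ea]
        exact hs _ _ (hstep _ _ hP' (ea ▸ hPa) hrp' hr'μ)
      by_cases hb1 : b = 1
      · subst hb1
        exact hdown (hconv (d * 1) (d * a') (d * (r' * a')) ⟨a', by ring⟩ ⟨r', by ring⟩ hPb hPa)
      · obtain ⟨r, hrp, b', rfl⟩ := Nat.exists_prime_and_dvd hb1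
        have hb' : 0 < b' := by
          rcases Nat.eq_zero_or_pos b' with h0 | h0
          · subst h0; simp at hb
          · exact h0
        have hrr' : r ≠ r' := by
          rintro rfl
          have := Nat.Coprime.coprime_dvd_left (Nat.dvd_mul_right r a') hco
          have := Nat.Coprime.coprime_dvd_right (Nat.dvd_mul_right r b') this
          rw [Nat.coprime_self] at this
          exact hrp.one_lt.ne' this
        have hrμ : (r : ℤ) ∣ μ := hp r hrp
          (Dvd.dvd.mul_left (Nat.dvd_mul_right _ _) _)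
        have hdv : ((d * a' * r' * r : ℕ) : ℤ) ∣ N := by
          refine Dvd.dvd.trans ?_ hN
          exact_mod_cast (⟨b', by ring⟩ : d * a' * r' * r ∣ d * (r' * a' * (r * b')))
        rcases hmove (d * a') r r' hrp hrp' hrr' hrμ hr'μ (ea ▸ hPa) hdv with hP' | hP'
        · -- going up to `d * a * r`
          have hlt : (r' * a') * b' ≤ k := by
            have h2 := hrp.two_le
            have : 2 * (r' * a' * b') ≤ r * (r' * a' * b') := Nat.mul_le_mul_right _ h2
            have h3 : 0 < r' * a' * b' := Nat.mul_pos ha hb'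
            have h4 : r * (r' * a' * b') = r' * a' * (r * b') := by ring
            omega
          have q1 := ih (d * r) (r' * a') b' hlt ha hb' (Nat.mul_pos hd hrp.pos)
            (Nat.Coprime.coprime_dvd_right (Nat.dvd_mul_left _ _) hco)
            (fun p pp hpd => hp p pp (by
              refine hpd.trans ⟨r, by ring⟩)) ((by
                have e5 : d * r * (r' * a' * b') = d * (r' * a' * (r * b')) := by ring
                rw [e5]; exact hN)) (by
                  have e5 : d * r * (r' * a') = d * a' * r' * r := by ring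
                  rw [e5]; exact hP') (by
                  have e5 : d * r * b' = d * (r * b') := by ring
                  rw [e5]; exact hPb)
          have e6 : d * r * b' = d * (r * b') := by ring
          rw [e6] at q1
          refine ht _ _ _ ?_ q1
          have e7 : d * r * (r' * a') = d * (r' * a') * r := by ring
          rw [e7]
          refine hstep _ _ hPa ?_ hrp hrμ
          have e8 : d * (r' * a') * r = d * a' * r' * r := by ring
          rw [e8]; exact hP'
        · exact hdown hP'

/-- A number prime to `μ` dividing `x` divides `y`, and conversely: then the primes in the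
quotients by the gcd divide `μ`. -/
lemma primes_of {μ : ℤ} {x y : ℕ} (hx : 0 < x)
    (h : ∀ c : ℕ, IsCoprime (c : ℤ) μ → c ∣ x → c ∣ y) {p : ℕ} (hp : p.Prime)
    (hpd : p ∣ x / Nat.gcd x y) : (p : ℤ) ∣ μ := by
  by_contra hμ
  obtain ⟨k, e, he, hxe⟩ := Nat.exists_eq_pow_mul_and_not_dvd hx.ne' p hp.ne_one
  have hco : IsCoprime ((p ^ k : ℕ) : ℤ) μ := by
    push_cast
    apply IsCoprime.pow_left
    exact (Prime.coprime_iff_not_dvd (Nat.prime_iff_prime_int.mp hp)).mpr hμ
  have h1 : p ^ k ∣ Nat.gcd x y := Nat.dvd_gcd ⟨e, hxe⟩ (h _ hco ⟨e, hxe⟩)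
  obtain ⟨d', hd'⟩ := h1
  obtain ⟨a, ha⟩ := Nat.gcd_dvd_left x y
  have hg : 0 < Nat.gcd x y := Nat.gcd_pos_of_pos_left _ hx
  have h2 : x / Nat.gcd x y = a := Nat.div_eq_of_eq_mul_right hg ha
  rw [h2] at hpd
  apply he
  have h3 : p ^ k * e = p ^ k * (d' * a) := by
    rw [← hxe, ← mul_assoc, ← hd', ← ha]
  have h4 := Nat.eq_of_mul_eq_mul_left (pow_pos hp.pos k) h3
  rw [h4]
  exact hpd.mul_left _

end Pool.Agent.N447.SS
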