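import Pool.Agent.N447.SS.Gen

/-!
# Rank one perturbations of scalar matrices: the classification with arbitrary content
-/

set_option autoImplicit false

namespace Pool.Agent.N447.SS

open Matrix Pool.Agent.TH441.SSE2 Pool.Agent.R647.SS

variable {m : ℕ}

/-- Two different indices can be moved to `0` and `1`. -/
lemma exists_perm {b s : Fin (m + 3)} (hbs : b ≠ s) :
    ∃ σ : Equiv.Perm (Fin (m + 3)), σ 0 = b ∧ σ 1 = s := by
  have h10 : (1 : Fin (m + 3)) ≠ 0 := n10
  set τ := Equiv.swap (0 : Fin (m + 3)) b with hτ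
  have hτs : τ s ≠ 0 := by
    intro h
    have h1 : τ (τ s) = τ 0 := by rw [h]
    rw [hτ, Equiv.swap_apply_left] at h1
    rw [Equiv.swap_apply_self] at h1
    exact hbs h1.symm
  refine ⟨(Equiv.swap 1 (τ s)).trans τ, ?_, ?_⟩
  · rw [Equiv.trans_apply, Equiv.swap_apply_of_ne_of_ne h10.symm hτs.symm, hτ,
      Equiv.swap_apply_left]
  · rw [Equiv.trans_apply, Equiv.swap_apply_left, hτ, Equiv.swap_apply_self]

lemma gen' {μ : ℤ} (hμ : 1 ≤ μ) {u v : Fin (m + 3) → ℤ} (hu : ∀ k, 1 ≤ u k) (hv : ∀ k, 1 ≤ v k)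
    {b s : Fin (m + 3)} (hbs : b ≠ s) (h0 : 4 * μ * (m + 3) * (μ + v s) ≤ v b) :
    ∃ g : ℤ, 1 ≤ g ∧ g ∣ ∑ k, u k * v k ∧
      Lw μ u v (on _) (cv m g (∑ k, u k * v k)) := by
  obtain ⟨σ, h1, h2⟩ := exists_perm hbs
  have q := perm_lw (μ := μ) (by linarith) σ hu hv
  have hsum : ∑ k, u (σ k) * v (σ k) = ∑ k, u k * v k := Equiv.sum_comp σ (fun k => u k * v k)
  obtain ⟨g, g1, g2, g3⟩ := gen hμ (u := fun k => u (σ k)) (v := fun k => v (σ k))
    (fun k => hu _) (fun k => hv _) (by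
      show 2 * μ * v (σ 1) * (m + 1) + (5 * μ + 2) * (μ + v (σ 1)) ≤ v (σ 0)
      rw [h1, h2]
      refine le_trans ?_ h0
      have hm : (0 : ℤ) ≤ m := Int.natCast_nonneg m
      have hs := hv s
      have e1 : 0 ≤ μ * m * μ := by positivity
      have e2 : 0 ≤ μ * m * v s := by positivity
      have e3 : 0 ≤ μ * v s := by positivity
      nlinarith)
  rw [hsum] at g2 g3
  exact ⟨g, g1, g2, q.trans g3⟩

/-- The two canonical forms. -/
lemma flip {μ g N : ℤ} (hμ : 1 ≤ μ) (hg : 1 ≤ g) (hgN : g ∣ N)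
    (hN : (m + 2) * g + 2 * μ * g ≤ N) : Q (M μ (cv m g N) (on _)) (cm m μ N g) := by
  have h10 : (1 : Fin (m + 3)) ≠ 0 := n10
  obtain ⟨k, hk⟩ := hgN
  set x := k - (m + 2) with hx
  have hgx : g * x = N - (m + 2) * g := by rw [hx, hk]; ring
  have hx2 : 2 * μ ≤ x := by
    have : g * (2 * μ) ≤ g * x := by rw [hgx]; linarith
    exact le_of_mul_le_mul_left this (by linarith)
  set u0 : Fin (m + 3) → ℤ := fun i => if i = 0 then x else 1 with hu0
  set v0 : Fin (m + 3) → ℤ := fun _ => g with hv0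
  have e0 : M μ (cv m g N) (on _) = M μ u0 v0 := by
    ext i j
    simp only [M, cv, hu0, hv0]
    split_ifs <;> first | rfl | linarith
  have p0 : ∀ i, 1 ≤ u0 i := fun i => by
    simp only [hu0]
    split_ifs
    · linarith
    · exact le_rfl
  have p0' : ∀ i, 1 ≤ v0 i := fun _ => hg
  have a1 : u0 0 = x := by simp only [hu0, if_pos]
  have a2 : u0 1 = 1 := by simp only [hu0, if_neg h10]
  have hμg : 0 ≤ μ * g := by positivity
  set u1 : Fin (m + 3) → ℤ := fun i => if i = 0 then x - μ else 1 with hu1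
  set v1 : Fin (m + 3) → ℤ := fun i => if i = 1 then g + μ * g else g with hv1
  have q1 : Lw μ u0 v0 u1 v1 := by
    refine chs hμ h10.symm (t := μ) (by linarith) p0 p0' (fun i => ?_) (fun i => ?_) ?_ ?_
    · rw [a1, a2]
      simp only [hu1, hu0]
      split_ifs <;> ring
    · simp only [hv1, hv0]
    · rw [a1, a2]; linarith
    · rw [a1, a2]
      show μ ≤ (x - μ * 1) * g
      nlinarith
  have p1u : ∀ i, 1 ≤ u1 i := fun i => by
    simp only [hu1]
    split_ifs
    · linarith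
    · exact le_rfl
  have p1v : ∀ i, 1 ≤ v1 i := fun i => by
    simp only [hv1]
    split_ifs
    · linarith
    · exact hg
  have b1 : u1 0 = x - μ := by simp only [hu1, if_pos]
  have b2 : u1 1 = 1 := by simp only [hu1, if_neg h10]
  have b3 : v1 1 = g + μ * g := by simp only [hv1, if_pos]
  have b4 : v1 0 = g := by simp only [hv1, if_neg h10.symm]
  set v2 : Fin (m + 3) → ℤ := fun i => if i = 1 then g * x else g with hv2
  have q2 : Lw μ u1 v1 (on _) v2 := by
    refine chs hμ h10.symm (t := x - 1 - μ) (by linarith) p1u p1v (fun i => ?_) (fun i => ?_) ?_ ?_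
    · rw [b1, b2]
      simp only [hu1]
      split_ifs
      · ring
      · rfl
    · rw [b3, b4]
      simp only [hv2, hv1]
      split_ifs
      · ring
      · rfl
    · rw [b1, b2]; linarith
    · rw [b1, b2, b3]
      nlinarith
  have p2v : ∀ i, 1 ≤ v2 i := fun i => by
    simp only [hv2]
    split_ifs
    · nlinarith
    · exact hg
  have q3 := perm_lw (μ := μ) (by linarith) (Equiv.swap (0 : Fin (m + 3)) 1) (on_pos _) p2v
  have e3 : (fun k => v2 (Equiv.swap (0 : Fin (m + 3)) 1 k)) = cv m g N := by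
    ext k
    by_cases hk0 : k = 0
    · subst hk0
      simp only [Equiv.swap_apply_left, hv2, if_pos, cv, hgx]
    · by_cases hk1 : k = 1
      · subst hk1
        simp only [Equiv.swap_apply_right, hv2, if_neg h10.symm, cv, if_neg h10]
      · simp only [Equiv.swap_apply_of_ne_of_ne hk0 hk1, hv2, if_neg hk1, cv, if_neg hk0]
  rw [e0]
  have := (q1.trans q2).trans q3
  rw [e3] at this
  exact this.q

lemma eq_of_dvd_iff {a b : ℤ} (ha : 0 ≤ a) (hb : 0 ≤ b) (h : ∀ c, c ∣ a ↔ c ∣ b) : a = b :=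
  Int.dvd_antisymm ha hb ((h a).mp dvd_rfl) ((h b).mpr dvd_rfl)

/-- Unbalanced matrices reach the canonical form. -/
lemma reach_small {μ : ℤ} (hμ : 1 ≤ μ) {u v : Fin (m + 3) → ℤ} (hu : ∀ k, 1 ≤ u k)
    (hv : ∀ k, 1 ≤ v k) {g : ℤ} (hg : 1 ≤ g) (hc : ∀ c, Cont u v c ↔ c ∣ g)
    {i j : Fin (m + 3)} (h : 64 * (m + 3) ^ 3 * μ ^ 4 * (u i * v j) ≤ ∑ k, u k * v k) :
    Q (M μ u v) (cm m μ (∑ k, u k * v k) g) := by
  set N := ∑ k, u k * v k with hN
  have hm : (0 : ℤ) ≤ m := Int.natCast_nonneg m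
  set n : ℤ := (m : ℤ) + 3 with hn
  have hn3 : 3 ≤ n := by linarith
  have hui := hu i
  have hvj := hv j
  obtain ⟨l, hl⟩ : ∃ l, N ≤ n * (u l * v l) := by
    by_contra hcon
    push Not at hcon
    have h1 : ∑ l : Fin (m + 3), n * (u l * v l) < ∑ _l : Fin (m + 3), N :=
      Finset.sum_lt_sum_of_nonempty ⟨0, Finset.mem_univ _⟩ fun l _ => hcon l
    rw [← Finset.mul_sum, Finset.sum_const, Finset.card_univ, Fintype.card_fin,
      nsmul_eq_mul] at h1
    push_cast at h1
    rw [← hN, ← hn] at h1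
    exact lt_irrefl _ h1
  have h1 : (8 * n * μ ^ 2 * u i) * (8 * n * μ ^ 2 * v j) ≤ u l * v l := by
    have h2 : n * ((8 * n * μ ^ 2 * u i) * (8 * n * μ ^ 2 * v j)) ≤ n * (u l * v l) := by
      refine le_trans (le_of_eq ?_) (h.trans hl)
      ring
    exact le_of_mul_le_mul_left h2 (by linarith)
  have hμ2 : 1 ≤ μ ^ 2 := by nlinarith
  have hgN : ∀ {w : ℤ}, 1 ≤ w → w ∣ g → w ≤ g := fun _ h => Int.le_of_dvd (by linarith) h
  have hgle : g ≤ u i * v j :=
    Int.le_of_dvd (mul_pos (by linarith) (by linarith)) ((hc g).mpr dvd_rfl i j)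
  have hNbig : (m + 2) * g + 2 * μ * g ≤ N := by
    refine le_trans ?_ h
    have h3 : 64 * n ^ 3 * μ ^ 4 * g ≤ 64 * n ^ 3 * μ ^ 4 * (u i * v j) :=
      mul_le_mul_of_nonneg_left hgle (by positivity)
    refine le_trans ?_ h3
    have h4 : (n + 2 * μ) ≤ 64 * n ^ 3 * μ ^ 4 := by
      have e1 : n ≤ n ^ 3 := by nlinarith [sq_nonneg n, mul_nonneg (by linarith : 0 ≤ n) (by nlinarith : 0 ≤ n ^ 2 - 1)]
      have e2 : μ ≤ μ ^ 4 := by nlinarith [mul_nonneg (by linarith : 0 ≤ μ) (by nlinarith : 0 ≤ μ ^ 3 - 1), hμ2]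
      have e3 : 1 ≤ n ^ 3 := by linarith
      have e4 : 1 ≤ μ ^ 4 := by linarith
      nlinarith
    have h5 : (n + 2 * μ) * g ≤ 64 * n ^ 3 * μ ^ 4 * g := mul_le_mul_of_nonneg_right h4 (by linarith)
    rw [hn] at h5
    refine le_trans ?_ h5
    nlinarith
  -- the conclusion from the reduction of `(u, v)` or `(v, u)`
  rcases le_total (8 * n * μ ^ 2 * v j) (v l) with hc1 | hc1
  · have hbig : 4 * μ * (m + 3) * (μ + v j) ≤ v l := by
      refine le_trans ?_ hc1
      rw [← hn]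
      have e1 : μ + v j ≤ 2 * μ * v j := by nlinarith
      have e2 : 4 * μ * n * (μ + v j) ≤ 4 * μ * n * (2 * μ * v j) :=
        mul_le_mul_of_nonneg_left e1 (by positivity)
      nlinarith
    have hlj : l ≠ j := by
      rintro rfl
      have : 1 * v l < 8 * n * μ ^ 2 * v l := by
        apply mul_lt_mul_of_pos_right _ (by linarith)
        nlinarith
      linarith
    obtain ⟨g', g1, g2, g3⟩ := gen' hμ hu hv hlj hbig
    have hgg : g' = g := eq_of_dvd_iff (by linarith) (by linarith) fun c => by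
      rw [← hc c, ← g3.cont c]
      exact (cont_cv m g2 c).symm
    rw [← hgg]
    exact g3.q
  · have hc2 : 8 * n * μ ^ 2 * u i ≤ u l := by
      by_contra hcon
      push Not at hcon
      have e1 : u l * v l < (8 * n * μ ^ 2 * u i) * (8 * n * μ ^ 2 * v j) :=
        mul_lt_mul hcon hc1 (by linarith [hv l]) (by positivity)
      linarith
    have hbig : 4 * μ * (m + 3) * (μ + u i) ≤ u l := by
      refine le_trans ?_ hc2
      rw [← hn]
      have e1 : μ + u i ≤ 2 * μ * u i := by nlinarith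
      have e2 : 4 * μ * n * (μ + u i) ≤ 4 * μ * n * (2 * μ * u i) :=
        mul_le_mul_of_nonneg_left e1 (by positivity)
      nlinarith
    have hli : l ≠ i := by
      rintro rfl
      have : 1 * u l < 8 * n * μ ^ 2 * u l := by
        apply mul_lt_mul_of_pos_right _ (by linarith)
        nlinarith
      linarith
    obtain ⟨g', g1, g2, g3⟩ := gen' hμ hv hu hli hbig
    have hsum : ∑ k, v k * u k = N := Finset.sum_congr rfl fun k _ => mul_comm _ _
    rw [hsum] at g2 g3
    have hcs : ∀ c, Cont v u c ↔ Cont u v c := fun c =>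
      ⟨fun h i j => by rw [mul_comm]; exact h j i, fun h i j => by rw [mul_comm]; exact h j i⟩
    have hgg : g' = g := eq_of_dvd_iff (by linarith) (by linarith) fun c => by
      rw [← hc c, ← hcs c, ← g3.cont c]
      exact (cont_cv m g2 c).symm
    rw [hgg] at g2 g3
    have hT : ∀ a b : Fin (m + 3) → ℤ, (M μ a b)ᵀ = M μ b a := fun a b => by
      ext i j
      simp only [M, Matrix.transpose_apply]
      by_cases hij : i = j
      · rw [if_pos hij, if_pos hij.symm]; ring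
      · rw [if_neg hij, if_neg (fun h => hij h.symm)]; ring
    have q := g3.q.transpose
    rw [hT, hT] at q
    exact q.trans (flip hμ (by linarith) g2 hNbig)

/-- The admissible contents. -/
def Pc (m : ℕ) (μ N : ℤ) (g : ℕ) : Prop :=
  (1 ≤ μ ∨ |μ| ≤ g) ∧ 1 ≤ g ∧ (g : ℤ) ∣ N ∧ (m + 3) * (g : ℤ) ≤ N

lemma step_all {μ N : ℤ} (hN : 9 * (m + 3) * μ ^ 2 ≤ N) (g r : ℕ)
    (h1 : Pc m μ N g) (h2 : Pc m μ N (g * r)) (hr : r.Prime) (hrμ : (r : ℤ) ∣ μ) (hμ : μ ≠ 0) :
    Q (cm m μ N (g : ℤ)) (cm m μ N ((g * r : ℕ) : ℤ)) := by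
  obtain ⟨a1, a2, a3, a4⟩ := h1
  obtain ⟨_, _, b3, b4⟩ := h2
  push_cast at b3 b4 ⊢
  have hm : (0 : ℤ) ≤ m := Int.natCast_nonneg m
  have hg : (1 : ℤ) ≤ g := by exact_mod_cast a2
  have hr1 : (1 : ℤ) ≤ r := by exact_mod_cast hr.one_lt.le
  have hgr : (g : ℤ) ≤ g * r := by nlinarith
  have hrle : (r : ℤ) ≤ |μ| := Int.le_of_dvd (abs_pos.mpr hμ) ((dvd_abs _ _).mpr hrμ)
  have h0 : (g : ℤ) * r ≤ N - (m + 2) * (g * r) := by linarith
  have pru : ∀ k, 1 ≤ ru m (r : ℤ) k := fun k => by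
    rw [ru]
    split_ifs
    · exact le_rfl
    · exact hr1
  have prv : ∀ k, 1 ≤ rv m (g : ℤ) r N k := fun k => by
    rw [rv]
    split_ifs
    · linarith
    · exact hg
  have pcv : ∀ k, 1 ≤ cv m (g : ℤ) N k := fun k => by
    rw [cv]
    split_ifs
    · linarith
    · exact hg
  by_cases hcase : |μ| ≤ (g : ℤ)
  · -- large content
    have q1 : Q (cm m μ N (g : ℤ)) (M μ (ru m (r : ℤ)) (rv m (g : ℤ) r N)) := by
      refine Q_of_same ⟨fun _ => le_rfl, pcv, g, hcase, (cont_cv m a3 _).mpr dvd_rfl⟩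
        ⟨pru, prv, g, hcase, (cont_rv m a3 _).mpr dvd_rfl⟩ ?_ ?_
      · exact (dt_cv m _ _).trans (dt_rv m _ _ _).symm
      · intro c
        exact (cont_cv m a3 c).trans (cont_rv m a3 c).symm
    refine q1.trans (dstep m hr1 hrμ (by linarith) (by linarith) ?_ ?_)
    · obtain ⟨k, hk⟩ := hrμ
      have hk' : μ / r = k := by rw [hk]; exact Int.mul_ediv_cancel_left k (by linarith)
      rw [hk']
      have hkabs : |k| ≤ |μ| := by
        rw [hk, abs_mul, abs_of_nonneg (by linarith : (0 : ℤ) ≤ r)]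
        nlinarith [abs_nonneg k]
      have := neg_abs_le k
      linarith
    · have := neg_abs_le μ
      linarith
  · -- small content, `μ` positive
    push Not at hcase
    have hμ1 : 1 ≤ μ := by
      rcases a1 with h | h
      · exact h
      · exact absurd hcase (not_lt.mpr h)
    rw [abs_of_nonneg (by linarith)] at hcase hrle
    obtain ⟨g', g1, g2, g3⟩ := gen hμ1 pru prv (by
      have e0 : rv m (g : ℤ) r N 0 = N - (m + 2) * (g * r) := by rw [rv, if_pos rfl]
      have e1 : rv m (g : ℤ) r N 1 = g := by rw [rv, if_neg n10]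
      rw [e0, e1]
      have c1 : (g : ℤ) * r ≤ μ * μ := by nlinarith
      have c2 : (m + 2 : ℤ) * (g * r) ≤ (m + 2) * (μ * μ) := mul_le_mul_of_nonneg_left c1 (by linarith)
      have c3 : μ * (g : ℤ) ≤ μ * μ := by nlinarith
      have c4 : (m + 1 : ℤ) * (μ * g) ≤ (m + 1) * (μ * μ) := mul_le_mul_of_nonneg_left c3 (by linarith)
      have c5 : 0 ≤ (m : ℤ) * (μ * μ) := by positivity
      nlinarith)
    have hsum : ∑ k, ru m (r : ℤ) k * rv m (g : ℤ) r N k = N := dt_rv m _ _ _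
    rw [hsum] at g2 g3
    have hgg : g' = g := eq_of_dvd_iff (by linarith) (by linarith) fun c => by
      rw [← cont_cv m g2 c, g3.cont c]
      exact cont_rv m a3 c
    rw [hgg] at g3
    refine g3.symm.q.trans (dstep m hr1 hrμ (by linarith) (by linarith) ?_ (by linarith))
    have : 0 ≤ μ / r := Int.ediv_nonneg (by linarith) (by linarith)
    linarith

lemma move_all {μ N : ℤ} (hN : 9 * (m + 3) * μ ^ 2 ≤ N) (hμ : μ ≠ 0) (x r r' : ℕ)
    (hr : r.Prime) (hr' : r'.Prime) (hrr : r ≠ r') (hrμ : (r : ℤ) ∣ μ) (hr'μ : (r' : ℤ) ∣ μ)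
    (hP : Pc m μ N (x * r')) (hd : ((x * r' * r : ℕ) : ℤ) ∣ N) :
    Pc m μ N (x * r' * r) ∨ Pc m μ N x := by
  obtain ⟨a1, a2, a3, a4⟩ := hP
  have hx1 : 1 ≤ x := by
    rcases Nat.eq_zero_or_pos x with h | h
    · subst h; simp at a2
    · exact h
  have hx1' : (1 : ℤ) ≤ x := by exact_mod_cast hx1
  have hr1 : (1 : ℤ) ≤ r := by exact_mod_cast hr.one_lt.le
  have hr1' : (1 : ℤ) ≤ r' := by exact_mod_cast hr'.one_lt.le
  have hm : (0 : ℤ) ≤ m := Int.natCast_nonneg m
  have hPx : (1 ≤ μ ∨ |μ| ≤ x) → Pc m μ N x := by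
    intro h
    refine ⟨h, hx1, ?_, ?_⟩
    · push_cast at a3
      exact (Dvd.intro _ rfl).trans a3
    · push_cast at a4
      have : (x : ℤ) ≤ x * r' := by nlinarith
      nlinarith
  rcases a1 with h | h
  · exact Or.inr (hPx (Or.inl h))
  · by_cases hc : (m + 3) * ((x * r' * r : ℕ) : ℤ) ≤ N
    · left
      refine ⟨Or.inr ?_, ?_, hd, hc⟩
      · push_cast at h ⊢
        have : 0 ≤ (x : ℤ) * r' := by positivity
        nlinarith
      · exact Nat.mul_pos a2 hr.pos
    · right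
      push Not at hc
      apply hPx
      right
      have hrr' : ((r * r' : ℕ) : ℤ) ∣ μ := by
        have : IsCoprime (r : ℤ) (r' : ℤ) :=
          Nat.isCoprime_iff_coprime.mpr ((Nat.coprime_primes hr hr').mpr hrr)
        push_cast
        exact this.mul_dvd hrμ hr'μ
      have hle : ((r * r' : ℕ) : ℤ) ≤ |μ| := Int.le_of_dvd (abs_pos.mpr hμ) ((dvd_abs _ _).mpr hrr')
      push_cast at hle hc
      have h1 : (m + 3) * μ ^ 2 < (m + 3) * ((x : ℤ) * r' * r) := by nlinarith [sq_nonneg μ]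
      have h2 : μ ^ 2 < (x : ℤ) * r' * r := lt_of_mul_lt_mul_left h1 (by linarith)
      have h3 : (x : ℤ) * (r * r') ≤ x * |μ| := mul_le_mul_of_nonneg_left hle (by linarith)
      have h4 : |μ| * |μ| < x * |μ| := by
        have : |μ| * |μ| = μ ^ 2 := by rw [← sq, sq_abs]
        rw [this]
        linarith
      exact (lt_of_mul_lt_mul_right h4 (abs_nonneg μ)).le

/-- The canonical forms of two contents with the same part prime to `μ` are equivalent. -/
lemma contents {μ N : ℤ} (hμ : μ ≠ 0) (hN : 9 * (m + 3) * μ ^ 2 ≤ N) {x y : ℕ}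
    (hx : Pc m μ N x) (hy : Pc m μ N y)
    (h : ∀ c : ℕ, IsCoprime (c : ℤ) μ → (c ∣ x ↔ c ∣ y)) :
    Q (cm m μ N (x : ℤ)) (cm m μ N (y : ℤ)) := by
  have hx0 : 0 < x := hx.2.1
  have hy0 : 0 < y := hy.2.1
  have hg : 0 < Nat.gcd x y := Nat.gcd_pos_of_pos_left _ hx0
  obtain ⟨a, ha⟩ := Nat.gcd_dvd_left x y
  obtain ⟨b, hb⟩ := Nat.gcd_dvd_right x y
  set d := Nat.gcd x y with hd
  have hxa : x / d = a := Nat.div_eq_of_eq_mul_right hg ha
  have hyb : y / d = b := Nat.div_eq_of_eq_mul_right hg hb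
  have hco : a.Coprime b := by
    have := Nat.coprime_div_gcd_div_gcd (m := x) (n := y) hg
    rwa [← hd, hxa, hyb] at this
  have ha0 : 0 < a := by
    rcases Nat.eq_zero_or_pos a with h0 | h0
    · rw [h0, mul_zero] at ha; omega
    · exact h0
  have hb0 : 0 < b := by
    rcases Nat.eq_zero_or_pos b with h0 | h0
    · rw [h0, mul_zero] at hb; omega
    · exact h0
  have key := path (μ := μ) (N := N) (Pc m μ N)
    (fun g h => Q (cm m μ N (g : ℤ)) (cm m μ N (h : ℤ))) (fun g => Q.refl _)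
    (fun g h q => q.symm) (fun f g h q q' => q.trans q')
    (fun g r p1 p2 hr hrμ => step_all hN g r p1 p2 hr hrμ hμ)
    (fun x y z hxy hyz px pz => by
      obtain ⟨a1, a2, a3, a4⟩ := px
      obtain ⟨c1, c2, c3, c4⟩ := pz
      have hy1 : 1 ≤ y := by
        rcases Nat.eq_zero_or_pos y with h0 | h0
        · subst h0
          have := Nat.eq_zero_of_zero_dvd hyz
          omega
        · exact h0
      have hxy' : (x : ℤ) ≤ y := by exact_mod_cast Nat.le_of_dvd hy1 hxy
      have hyz' : (y : ℤ) ≤ z := by exact_mod_cast Nat.le_of_dvd c2 hyz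
      refine ⟨?_, hy1, ?_, ?_⟩
      · rcases a1 with h0 | h0
        · exact Or.inl h0
        · exact Or.inr (h0.trans hxy')
      · exact (Int.natCast_dvd_natCast.mpr hyz).trans c3
      · have hm : (0 : ℤ) ≤ m := Int.natCast_nonneg m
        nlinarith)
    (move_all hN hμ) (a * b) d a b le_rfl ha0 hb0 hg hco (fun p pp hpd => by
      rcases (Nat.Prime.dvd_mul pp).mp hpd with h1 | h1
      · exact primes_of hx0 (y := y) (fun c hc hcx => (h c hc).mp hcx) pp (by
          rw [← hd, hxa]; exact h1)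
      · exact primes_of hy0 (y := x) (fun c hc hcy => (h c hc).mpr hcy) pp (by
          rw [Nat.gcd_comm, ← hd, hyb]; exact h1)) (by
      -- the least common multiple divides `N`
      have h1 : x ∣ N.natAbs := Int.natCast_dvd.mp hx.2.2.1
      have h2 : y ∣ N.natAbs := Int.natCast_dvd.mp hy.2.2.1
      have h3 : Nat.lcm x y ∣ N.natAbs := Nat.lcm_dvd h1 h2
      have h4 : Nat.lcm x y = d * (a * b) := by
        apply Nat.eq_of_mul_eq_mul_left hg
        rw [hd, Nat.gcd_mul_lcm, ← hd]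
        calc x * y = (d * a) * (d * b) := by rw [← ha, ← hb]
          _ = d * (d * (a * b)) := by ring
      rw [h4] at h3
      exact Int.natCast_dvd.mpr h3) (by rw [← ha]; exact hx) (by rw [← hb]; exact hy)
  rw [← ha, ← hb] at key
  exact key

end Pool.Agent.N447.SS
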