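import Pool.Agent.N447.SS.Red

/-!
# Rank one perturbations of scalar matrices: reduction of unbalanced pairs
-/

set_option autoImplicit false

namespace Pool.Agent.N447.SS

open Matrix Pool.Agent.TH441.SSE2 Pool.Agent.R647.SS

/-- A single move, with all bookkeeping. -/
lemma os {n : ℕ} {μ : ℤ} (hμ : 1 ≤ μ) {u v : Fin n → ℤ} (hu : ∀ k, 1 ≤ u k) (hv : ∀ k, 1 ≤ v k)
    {i j : Fin n} (hlt : u j < u i) (hm : μ ≤ v j) : ∃ u' v' : Fin n → ℤ,
    Lw μ u v u' v' ∧ (∀ k, 1 ≤ u' k) ∧ (∀ k, 1 ≤ v' k) ∧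
      (∀ k, u' k = if k = i then u i - u j else u k) ∧
      (∀ k, v' k = if k = j then v j + v i else v k) ∧ ∑ k, u' k = ∑ k, u k - u j := by
  have hij : i ≠ j := by rintro rfl; exact lt_irrefl _ hlt
  refine ⟨Function.update u i (u i - u j), Function.update v j (v j + v i),
    ⟨fun c => cont_move hij c, dot_move hij, mv hμ hu hv hij hlt ?_⟩, fun k => ?_, fun k => ?_,
    fun k => Function.update_apply _ _ _ _, fun k => Function.update_apply _ _ _ _, sum_upd u i j⟩
  · have : 1 ≤ u i - u j := by linarith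
    nlinarith
  · rw [Function.update_apply]
    split_ifs
    · linarith
    · exact hu k
  · rw [Function.update_apply]
    split_ifs
    · linarith [hv j, hv i]
    · exact hv k

variable {m : ℕ}

lemma p1 {μ : ℤ} (hμ : 1 ≤ μ) (B : ℕ) : ∀ u v : Fin (m + 3) → ℤ, (∀ k, 1 ≤ u k) →
    (∀ k, 1 ≤ v k) → μ ≤ v 0 → ∑ k, u k ≤ B → ∃ u' v' : Fin (m + 3) → ℤ, Lw μ u v u' v' ∧
      (∀ k, 1 ≤ u' k) ∧ (∀ k, 1 ≤ v' k) ∧ (∀ k, u' k ≤ u' 0) ∧ (∀ k, k ≠ 0 → v' k = v k) ∧
      v 0 ≤ v' 0 := by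
  induction B with
  | zero =>
    intro u v hu hv _ hB
    exfalso
    have h1 : ∑ _i : Fin (m + 3), (1 : ℤ) ≤ ∑ i, u i := Finset.sum_le_sum fun i _ => hu i
    simp at h1
    push_cast at hB
    have : (0 : ℤ) ≤ m := Int.natCast_nonneg m
    linarith
  | succ B ih =>
    intro u v hu hv h0 hB
    by_cases hex : ∃ k, u 0 < u k
    · obtain ⟨k, hk⟩ := hex
      obtain ⟨u1, v1, q, b1, b2, b3, b4, b5⟩ := os hμ hu hv hk h0
      have e0 : v1 0 = v 0 + v k := by rw [b4, if_pos rfl]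
      obtain ⟨u', v', c1, c2, c3, c4, c5, c6⟩ := ih u1 v1 b1 b2 (by rw [e0]; linarith [hv k])
        (by rw [b5]; push_cast at hB; linarith [hu 0])
      refine ⟨u', v', q.trans c1, c2, c3, c4, fun l hl => ?_, ?_⟩
      · rw [c5 l hl, b4, if_neg hl]
      · rw [e0] at c6; linarith [hv k]
    · push Not at hex
      exact ⟨u, v, Lw.refl _ _ _, hu, hv, hex, fun _ _ => rfl, le_rfl⟩

lemma p2 {μ : ℤ} (hμ : 1 ≤ μ) (s : Finset (Fin (m + 3))) : 0 ∉ s → 1 ∉ s →
    ∀ (X : ℤ) (u v : Fin (m + 3) → ℤ), (∀ k, 1 ≤ u k) → (∀ k, 1 ≤ v k) → μ ≤ X →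
      2 * μ * v 1 * s.card + X ≤ v 0 → ∃ u' v' : Fin (m + 3) → ℤ, Lw μ u v u' v' ∧
      (∀ k, 1 ≤ u' k) ∧ (∀ k, 1 ≤ v' k) ∧ v' 1 = v 1 ∧ X ≤ v' 0 ∧ (∀ k, k ≠ 0 → v k ≤ v' k) ∧
      ∀ k ∈ s, μ ≤ v' k := by
  have h10 : (1 : Fin (m + 3)) ≠ 0 := n10
  induction s using Finset.induction_on with
  | empty =>
    intro _ _ X u v hu hv hX h0
    refine ⟨u, v, Lw.refl _ _ _, hu, hv, rfl, ?_, fun _ _ => le_rfl, by simp⟩
    simpa using h0
  | insert k s hk ih =>
    intro h0s h1s X u v hu hv hX h0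
    have hk0 : k ≠ 0 := fun h => h0s (by rw [h]; exact Finset.mem_insert_self _ _)
    have hk1 : k ≠ 1 := fun h => h1s (by rw [h]; exact Finset.mem_insert_self _ _)
    have h0s' : (0 : Fin (m + 3)) ∉ s := fun h => h0s (Finset.mem_insert_of_mem h)
    have h1s' : (1 : Fin (m + 3)) ∉ s := fun h => h1s (Finset.mem_insert_of_mem h)
    rw [Finset.card_insert_of_notMem hk] at h0
    push_cast at h0
    have hv1 := hv 1
    have hc : (0 : ℤ) ≤ s.card := Int.natCast_nonneg _
    have hp : 0 ≤ 2 * μ * v 1 * s.card := mul_nonneg (mul_nonneg (by linarith) (by linarith)) hc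
    have hp2 : 0 ≤ 2 * μ * v 1 := mul_nonneg (by linarith) (by linarith)
    have h0' : 2 * μ * v 1 * s.card + 2 * μ * v 1 + X ≤ v 0 := by linarith
    obtain ⟨u1, v1, q1, a1, a2, a3, a4, a5⟩ := p1 hμ (∑ k, u k).toNat u v hu hv (by linarith)
      (Int.self_le_toNat _)
    have v11 : v1 1 = v 1 := a4 1 h10
    have v1k : v1 k = v k := a4 k hk0
    set u2 : Fin (m + 3) → ℤ := fun x => if x = 1 then u1 1 + 2 * μ * u1 0 else u1 x with hu2
    set v2 : Fin (m + 3) → ℤ := fun x => if x = 0 then v1 0 - 2 * μ * v1 1 else v1 x with hv2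
    have hbig : 2 * μ * v 1 * s.card + X ≤ v1 0 - 2 * μ * v1 1 := by rw [v11]; linarith
    have q2 : Lw μ u1 v1 u2 v2 := by
      refine chr hμ h10 (t := 2 * μ) (by linarith) a1 a2 (fun x => rfl) (fun x => rfl)
        (by linarith) ?_
      have h3 : μ ≤ v1 0 - 2 * μ * v1 1 := by linarith
      nlinarith [a1 1]
    have u21 : u2 1 = u1 1 + 2 * μ * u1 0 := by simp only [hu2, if_pos]
    have u2k : u2 k = u1 k := by simp only [hu2, if_neg hk1]
    have v21 : v2 1 = v1 1 := by simp only [hv2, if_neg h10]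
    have v2k : v2 k = v1 k := by simp only [hv2, if_neg hk0]
    have hμ0 : 0 ≤ μ * u1 0 := mul_nonneg (by linarith) (by linarith [a1 0])
    have hμu : μ ≤ μ * u1 0 := by nlinarith [a1 0]
    have p2u : ∀ x, 1 ≤ u2 x := fun x => by
      simp only [hu2]
      split_ifs
      · nlinarith [a1 1]
      · exact a1 x
    have p2v : ∀ x, 1 ≤ v2 x := fun x => by
      simp only [hv2]
      split_ifs
      · linarith
      · exact a2 x
    set u3 : Fin (m + 3) → ℤ := fun x => if x = 1 then u2 1 - μ * u2 k else u2 x with hu3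
    set v3 : Fin (m + 3) → ℤ := fun x => if x = k then v2 k + μ * v2 1 else v2 x with hv3
    have hle : μ * u1 k ≤ μ * u1 0 := mul_le_mul_of_nonneg_left (a3 k) (by linarith)
    have hge : μ + 1 ≤ u2 1 - μ * u2 k := by rw [u21, u2k]; linarith [a1 1]
    have q3 : Lw μ u2 v2 u3 v3 := by
      refine chs hμ hk1.symm (t := μ) (by linarith) p2u p2v (fun x => rfl) (fun x => rfl)
        (by linarith) ?_
      nlinarith [p2v k]
    have p3u : ∀ x, 1 ≤ u3 x := fun x => by
      simp only [hu3]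
      split_ifs
      · linarith
      · exact p2u x
    have hμv : μ ≤ μ * v2 1 := by nlinarith [p2v 1]
    have p3v : ∀ x, 1 ≤ v3 x := fun x => by
      simp only [hv3]
      split_ifs
      · linarith [p2v k]
      · exact p2v x
    have v31 : v3 1 = v 1 := by simp only [hv3, if_neg hk1.symm, v21, v11]
    have v30 : v3 0 = v1 0 - 2 * μ * v1 1 := by simp only [hv3, if_neg hk0.symm, hv2, if_pos]
    have v3k : μ ≤ v3 k := by simp only [hv3, if_pos]; linarith [p2v k]
    obtain ⟨u', v', c1, c2, c3, c4, c5, c6, c7⟩ := ih h0s' h1s' X u3 v3 p3u p3v hX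
      (by rw [v31, v30]; exact hbig)
    refine ⟨u', v', (q1.trans q2).trans (q3.trans c1), c2, c3, c4.trans v31, c5, fun l hl => ?_,
      fun l hl => ?_⟩
    · refine le_trans ?_ (c6 l hl)
      simp only [hv3]
      by_cases hlk : l = k
      · subst hlk
        rw [if_pos rfl, v2k, v1k]
        linarith
      · rw [if_neg hlk]
        simp only [hv2]
        rw [if_neg hl, a4 l hl]
    · rcases Finset.mem_insert.mp hl with rfl | hl
      · exact v3k.trans (c6 _ hk0)
      · exact c7 l hl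

/-- The Euclidean algorithm for `u` which does not change `v_s`. -/
lemma eu {μ : ℤ} (hμ : 1 ≤ μ) (s : Fin (m + 3)) (B : ℕ) : ∀ u v : Fin (m + 3) → ℤ,
    (∀ k, 1 ≤ u k) → (∀ k, 1 ≤ v k) → (∀ j, j ≠ s → μ ≤ v j) → ∑ k, u k ≤ B →
    ∃ u' v' : Fin (m + 3) → ℤ, Lw μ u v u' v' ∧
      (∀ k, 1 ≤ u' k) ∧ (∀ k, 1 ≤ v' k) ∧ v' s = v s ∧ (∀ j, v j ≤ v' j) ∧
      (∀ j, j ≠ s → ∀ i, u' i ≤ u' j) ∧
      (∀ c : ℤ, (∀ j, j ≠ s → c ∣ u' j) → ∀ j, j ≠ s → c ∣ u j) ∧
      (∀ c : ℤ, (∀ j, c ∣ u j) → ∀ j, c ∣ u' j) := by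
  induction B with
  | zero =>
    intro u v hu hv _ hB
    exfalso
    have h1 : ∑ _i : Fin (m + 3), (1 : ℤ) ≤ ∑ i, u i := Finset.sum_le_sum fun i _ => hu i
    simp at h1
    push_cast at hB
    have : (0 : ℤ) ≤ m := Int.natCast_nonneg m
    linarith
  | succ B ih =>
    intro u v hu hv hs hB
    by_cases hex : ∃ j, j ≠ s ∧ ∃ i, u j < u i
    · obtain ⟨j, hj, i, hlt⟩ := hex
      have hij : i ≠ j := by rintro rfl; exact lt_irrefl _ hlt
      obtain ⟨u1, v1, q, b1, b2, b3, b4, b5⟩ := os hμ hu hv hlt (hs j hj)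
      have hle : ∀ k, v k ≤ v1 k := fun k => by
        rw [b4]
        split_ifs with h
        · subst h; linarith [hv i]
        · exact le_rfl
      have u1j : u1 j = u j := by rw [b3, if_neg hij.symm]
      have u1i : u1 i = u i - u j := by rw [b3, if_pos rfl]
      obtain ⟨u', v', c1, c2, c3, c4, c5, c6, c7, c8⟩ := ih u1 v1 b1 b2
        (fun k hk => (hs k hk).trans (hle k)) (by rw [b5]; push_cast at hB; linarith [hu j])
      refine ⟨u', v', q.trans c1, c2, c3, ?_, fun k => (hle k).trans (c5 k), c6, ?_, ?_⟩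
      · rw [c4, b4, if_neg hj.symm]
      · intro c hc k hk
        have d1 := c7 c hc
        by_cases hki : k = i
        · subst hki
          have d2 := d1 k hk
          have d3 := d1 j hj
          rw [u1i] at d2
          rw [u1j] at d3
          exact (dvd_sub_left d3).mp d2
        · have d2 := d1 k hk
          rwa [b3, if_neg hki] at d2
      · intro c hc k
        refine c8 c (fun l => ?_) k
        rw [b3]
        split_ifs
        · exact dvd_sub (hc i) (hc j)
        · exact hc l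
    · push Not at hex
      exact ⟨u, v, Lw.refl _ _ _, hu, hv, rfl, fun _ => le_rfl, fun j hj i => hex j hj i,
        fun c hc => hc, fun c hc => hc⟩

lemma const_lw {n : ℕ} {μ d : ℤ} {u v : Fin n → ℤ} (h : ∀ k, u k = d) :
    Lw μ u v (on n) (fun k => d * v k) := by
  refine ⟨fun c => ⟨fun hc i j => ?_, fun hc i j => ?_⟩, ?_, ?_⟩
  · have := hc i j
    rw [one_mul] at this
    rw [h i]; exact this
  · have := hc i j
    rw [h i] at this
    rw [one_mul]; exact this
  · exact Finset.sum_congr rfl fun k _ => by rw [h k, one_mul]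
  · have : M μ u v = M μ (on n) (fun k => d * v k) := by
      ext i j
      simp only [M]
      rw [h i]; ring
    rw [this]
    exact Q.refl _

/-- The reduction of pairs with `v 0` large with respect to `v 1`. -/
lemma gen {μ : ℤ} (hμ : 1 ≤ μ) {u v : Fin (m + 3) → ℤ} (hu : ∀ k, 1 ≤ u k) (hv : ∀ k, 1 ≤ v k)
    (h0 : 2 * μ * v 1 * (m + 1) + (5 * μ + 2) * (μ + v 1) ≤ v 0) :
    ∃ g : ℤ, 1 ≤ g ∧ g ∣ ∑ k, u k * v k ∧
      Lw μ u v (on _) (cv m g (∑ k, u k * v k)) := by
  have h10 : (1 : Fin (m + 3)) ≠ 0 := n10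
  have h12 : (1 : Fin (m + 3)) ≠ 2 := n12
  have h02 : (0 : Fin (m + 3)) ≠ 2 := n02
  set X := (5 * μ + 2) * (μ + v 1) with hX
  have hv1 := hv 1
  have hXμ : μ ≤ X := by nlinarith
  -- the final step
  have fin : ∀ {u' v' : Fin (m + 3) → ℤ} {d : ℤ}, Lw μ u v u' v' → (∀ k, 1 ≤ v' k) → 1 ≤ d →
      (∀ k, u' k = d) → v' 1 ≤ μ + v 1 → (3 * μ + 1) * (μ + v 1) ≤ v' 0 →
      ∃ g : ℤ, 1 ≤ g ∧ g ∣ ∑ k, u k * v k ∧ Lw μ u v (on _) (cv m g (∑ k, u k * v k)) := by
    intro u' v' d hL hp hd hc h1 h2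
    have q := hL.trans (const_lw hc)
    have hsum : ∑ k, d * v' k = ∑ k, u k * v k := by
      have := q.dot
      simpa using this
    obtain ⟨g, g1, g2, g3⟩ := red5 hμ (C := d * (μ + v 1)) (w := fun k => d * v' k)
      (fun k => by nlinarith [hp k]) (mul_le_mul_of_nonneg_left h1 (by linarith))
      (by
        have := mul_le_mul_of_nonneg_left h2 (by linarith : 0 ≤ d)
        show (3 * μ + 1) * (d * (μ + v 1)) ≤ d * v' 0
        linarith)
    rw [hsum] at g2 g3
    exact ⟨g, g1, g2, q.trans g3⟩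
  -- phase two
  set s : Finset (Fin (m + 3)) := Finset.univ \ {0, 1} with hs
  have hcard : s.card = m + 1 := by
    rw [hs, Finset.card_sdiff_of_subset (Finset.subset_univ _), Finset.card_univ, Fintype.card_fin,
      Finset.card_pair h10.symm]
    omega
  obtain ⟨u1, v1, q1, a1, a2, a3, a4, a5, a6⟩ := p2 hμ s (by simp [hs]) (by simp [hs]) X u v hu hv
    hXμ (by rw [hcard]; push_cast; exact h0)
  have a7 : ∀ j, j ≠ 1 → μ ≤ v1 j := fun j hj => by
    by_cases hj0 : j = 0
    · subst hj0; linarith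
    · exact a6 j (by simp [hs, hj0, hj])
  -- phase two, second part
  obtain ⟨u2, v2, q2, b1, b2, b3, b4, b5, _, _⟩ := eu hμ 1 (∑ k, u1 k).toNat u1 v1 a1 a2 a7
    (Int.self_le_toNat _)
  have v21 : v2 1 = v 1 := b3.trans a3
  have v20 : X ≤ v2 0 := a4.trans (b4 0)
  have b6 : ∀ j, j ≠ 1 → u2 j = u2 0 := fun j hj => le_antisymm (b5 0 h10.symm j) (b5 j hj 0)
  have b7 : ∀ j, j ≠ 1 → μ ≤ v2 j := fun j hj => (a7 j hj).trans (b4 j)
  have q12 := q1.trans q2
  rcases (b5 0 h10.symm 1).lt_or_eq with hlt | heq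
  · -- phase three
    have v1pos : 0 < v 1 := by linarith
    set t := (v2 2 - μ) / v 1 with ht
    have h22 := b7 2 h12.symm
    have ht0 : 0 ≤ t := Int.ediv_nonneg (by linarith) (by linarith)
    have ht1 : t * v 1 ≤ v2 2 - μ := Int.ediv_mul_le _ (by linarith)
    have ht2 : v2 2 - μ < (t + 1) * v 1 := Int.lt_ediv_add_one_mul_self _ v1pos
    set u3 : Fin (m + 3) → ℤ := fun x => if x = 1 then u2 1 + t * u2 2 else u2 x with hu3
    set v3 : Fin (m + 3) → ℤ := fun x => if x = 2 then v2 2 - t * v2 1 else v2 x with hv3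
    have q3 : Lw μ u2 v2 u3 v3 := by
      refine chr hμ h12 ht0 b1 b2 (fun x => rfl) (fun x => rfl) (by rw [v21]; linarith) ?_
      rw [v21]
      have h3 : μ ≤ v2 2 - t * v 1 := by linarith
      nlinarith [b1 1]
    have u31 : u3 1 = u2 1 + t * u2 2 := by simp only [hu3, if_pos]
    have u30 : u3 0 = u2 0 := by simp only [hu3, if_neg h10.symm]
    have v31 : v3 1 = v2 1 := by simp only [hv3, if_neg h12]
    have v30 : v3 0 = v2 0 := by simp only [hv3, if_neg h02]
    have htu : 0 ≤ t * u2 2 := mul_nonneg ht0 (by linarith [b1 2])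
    have htv : 0 ≤ t * v 1 := mul_nonneg ht0 (by linarith)
    have p3u : ∀ x, 1 ≤ u3 x := fun x => by
      simp only [hu3]
      split_ifs
      · linarith [b1 1]
      · exact b1 x
    have p3v : ∀ x, 1 ≤ v3 x := fun x => by
      simp only [hv3]
      split_ifs
      · rw [v21]; linarith
      · exact b2 x
    have hcomp : u3 1 - t * u3 0 = u2 1 := by rw [u31, u30, b6 2 h12.symm]; ring
    set v4 : Fin (m + 3) → ℤ := fun x => if x = 0 then v3 0 + t * v3 1 else v3 x with hv4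
    have q4 : Lw μ u3 v3 u2 v4 := by
      refine chs hμ h10 ht0 p3u p3v (fun x => ?_) (fun x => rfl) (by rw [hcomp]; exact b1 1) ?_
      · by_cases hx : x = 1
        · subst hx
          rw [if_pos rfl, hcomp]
        · simp only [hu3, if_neg hx]
      · rw [hcomp, v30]
        have h3 : μ ≤ v2 0 := by linarith
        nlinarith [b1 1]
    have v40 : v4 0 = v2 0 + t * v 1 := by simp only [hv4, if_pos, v30, v31, v21]
    have v41 : v4 1 = v 1 := by simp only [hv4, if_neg h10, v31, v21]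
    have v42 : v4 2 = v2 2 - t * v 1 := by simp only [hv4, if_neg h02.symm, hv3, if_pos, v21]
    have v4lo : μ ≤ v4 2 := by rw [v42]; linarith
    have v4hi : v4 2 ≤ μ + v 1 := by rw [v42]; linarith
    have p4v : ∀ x, 1 ≤ v4 x := fun x => by
      simp only [hv4]
      split_ifs
      · rw [v30, v31, v21]; linarith
      · exact p3v x
    have hgap : (3 * μ + 2) * (μ + v 1) ≤ v4 0 - 2 * μ * v4 2 := by
      rw [v40]
      have : 2 * μ * v4 2 ≤ 2 * μ * (μ + v 1) := mul_le_mul_of_nonneg_left v4hi (by linarith)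
      nlinarith
    have hgap2 : μ ≤ v4 0 - 2 * μ * v4 2 := by nlinarith
    set u5 : Fin (m + 3) → ℤ := fun x => if x = 2 then u2 2 + 2 * μ * u2 0 else u2 x with hu5
    set v5 : Fin (m + 3) → ℤ := fun x => if x = 0 then v4 0 - 2 * μ * v4 2 else v4 x with hv5
    have q5 : Lw μ u2 v4 u5 v5 := by
      refine chr hμ h02.symm (t := 2 * μ) (by linarith) b1 p4v (fun x => rfl) (fun x => rfl)
        (by linarith) ?_
      nlinarith [b1 2]
    have u52 : u5 2 = u2 0 + 2 * μ * u2 0 := by simp only [hu5, if_pos, b6 2 h12.symm]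
    have u51 : u5 1 = u2 1 := by simp only [hu5, if_neg h12]
    have hμ0 : μ ≤ μ * u2 0 := by nlinarith [b1 0]
    have p5u : ∀ x, 1 ≤ u5 x := fun x => by
      simp only [hu5]
      split_ifs
      · nlinarith [b1 2]
      · exact b1 x
    have p5v : ∀ x, 1 ≤ v5 x := fun x => by
      simp only [hv5]
      split_ifs
      · linarith
      · exact p4v x
    have v51 : v5 1 = v 1 := by simp only [hv5, if_neg h10, v41]
    have v52 : v5 2 = v4 2 := by simp only [hv5, if_neg h02.symm]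
    set u6 : Fin (m + 3) → ℤ := fun x => if x = 2 then u5 2 - μ * u5 1 else u5 x with hu6
    set v6 : Fin (m + 3) → ℤ := fun x => if x = 1 then v5 1 + μ * v5 2 else v5 x with hv6
    have hlt' : μ * u2 1 ≤ μ * u2 0 := mul_le_mul_of_nonneg_left hlt.le (by linarith)
    have hge : μ + 1 ≤ u5 2 - μ * u5 1 := by rw [u52, u51]; linarith [b1 0]
    have q6 : Lw μ u5 v5 u6 v6 := by
      refine chs hμ h12.symm (t := μ) (by linarith) p5u p5v (fun x => rfl) (fun x => rfl)
        (by linarith) ?_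
      nlinarith [p5v 1]
    have p6u : ∀ x, 1 ≤ u6 x := fun x => by
      simp only [hu6]
      split_ifs
      · linarith
      · exact p5u x
    have hμ2 : μ ≤ μ * v4 2 := by nlinarith [p4v 2]
    have v60 : v6 0 = v4 0 - 2 * μ * v4 2 := by simp only [hv6, if_neg h10.symm, hv5, if_pos]
    have v61 : μ ≤ v6 1 := by simp only [hv6, if_pos, v52]; linarith [p5v 1]
    have v62 : v6 2 = v4 2 := by simp only [hv6, if_neg h12.symm, v52]
    have p6μ : ∀ x, μ ≤ v6 x := fun x => by
      by_cases hx1 : x = 1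
      · subst hx1; exact v61
      · by_cases hx0 : x = 0
        · subst hx0; rw [v60]; exact hgap2
        · by_cases hx2 : x = 2
          · subst hx2; rw [v62]; exact v4lo
          · simp only [hv6, if_neg hx1, hv5, if_neg hx0, hv4, hv3, if_neg hx2]
            exact b7 x hx1
    have p6v : ∀ x, 1 ≤ v6 x := fun x => hμ.trans (p6μ x)
    obtain ⟨u7, v7, q7, c1, c2, c3, c4, c5, c6, c7⟩ := eu hμ 2 (∑ k, u6 k).toNat u6 v6 p6u p6v
      (fun j _ => p6μ j) (Int.self_le_toNat _)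
    have c8 : ∀ j, j ≠ 2 → u7 j = u7 0 := fun j hj => le_antisymm (c5 0 h02 j) (c5 j hj 0)
    have d1 := c6 (u7 0) (fun j hj => by rw [c8 j hj])
    have d2 : u7 0 ∣ u2 0 := by
      have := d1 0 h02
      simpa only [hu6, if_neg h02, hu5] using this
    have d3 : u7 0 ∣ u2 1 := by
      have := d1 1 h12
      simpa only [hu6, if_neg h12, hu5] using this
    have d4 : ∀ j, u7 0 ∣ u6 j := fun j => by
      by_cases hj : j = 2
      · subst hj
        simp only [hu6, if_pos, u52, u51]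
        exact dvd_sub (dvd_add d2 (d2.mul_left _)) (d3.mul_left _)
      · exact d1 j hj
    have d5 := c7 (u7 0) d4 2
    have d6 : u7 2 = u7 0 := le_antisymm (c5 0 h02 2) (Int.le_of_dvd (by linarith [c1 2]) d5)
    have d7 : ∀ k, u7 k = u7 0 := fun k => by
      by_cases hk : k = 2
      · subst hk; exact d6
      · exact c8 k hk
    -- exchange the indices `1` and `2`
    have q8 := perm_lw (μ := μ) (by linarith) (Equiv.swap (1 : Fin (m + 3)) 2) c1 c2
    refine fin ((((q12.trans (q3.trans q4)).trans (q5.trans q6)).trans q7).trans q8)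
      (fun k => c2 _) (c1 0) (fun k => d7 _) ?_ ?_
    · show v7 (Equiv.swap (1 : Fin (m + 3)) 2 1) ≤ _
      rw [Equiv.swap_apply_left, c3, v62]
      exact v4hi
    · show _ ≤ v7 (Equiv.swap (1 : Fin (m + 3)) 2 0)
      rw [Equiv.swap_apply_of_ne_of_ne h10.symm h02]
      refine le_trans ?_ (c4 0)
      rw [v60]
      nlinarith
  · -- all entries of `u2` are equal
    refine fin q12 b2 (b1 0) (fun k => ?_) ?_ ?_
    · by_cases hk : k = 1
      · subst hk; exact heq
      · exact b6 k hk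
    · rw [v21]; linarith
    · nlinarith

end Pool.Agent.N447.SS
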