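import Pool.Agent.N447.SS.Cont

/-!
# Rank one perturbations of scalar matrices: general moves, for positive `μ`
-/

set_option autoImplicit false

namespace Pool.Agent.N447.SS

open Matrix Pool.Agent.TH441.SSE2 Pool.Agent.R647.SS

/-- The move `(u, v) → (u - u_j e_i, v + v_i e_j)` is an elementary equivalence as soon as
`(u_i - u_j) v_j ≥ μ`. -/
lemma mv {n : ℕ} {μ : ℤ} (hμ : 1 ≤ μ) {u v : Fin n → ℤ} (hu : ∀ k, 1 ≤ u k) (hv : ∀ k, 1 ≤ v k)
    {i j : Fin n} (hij : i ≠ j) (hlt : u j < u i) (hm : μ ≤ (u i - u j) * v j) :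
    Q (M μ u v) (M μ (Function.update u i (u i - u j)) (Function.update v j (v j + v i))) := by
  set u' := Function.update u i (u i - u j) with hu'
  set v' := Function.update v j (v j + v i) with hv'
  have hu'i : u' i = u i - u j := by rw [hu', Function.update_self]
  have hu'k : ∀ k, k ≠ i → u' k = u k := fun k hk => by rw [hu', Function.update_of_ne hk]
  have hv'j : v' j = v j + v i := by rw [hv', Function.update_self]
  have hv'k : ∀ k, k ≠ j → v' k = v k := fun k hk => by rw [hv', Function.update_of_ne hk]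
  have hu'p : ∀ k, 1 ≤ u' k := fun k => by
    by_cases hk : k = i
    · subst hk; rw [hu'i]; linarith
    · rw [hu'k k hk]; exact hu k
  let R : Matrix (Fin n) (Fin n) ℤ := fun a b => (if a = b then 1 else 0) + (if a = i ∧ b = j then 1 else 0)
  let S : Matrix (Fin n) (Fin n) ℤ := fun a b =>
    (if a = b then μ else 0) - (if a = i ∧ b = j then μ else 0) + u' a * v b
  refine Q.of_elem R S ?_ ?_ ?_ ?_
  · intro a b
    simp only [R]
    split_ifs <;> norm_num
  · intro a b
    simp only [S]
    have h3 : 0 ≤ u' a * v b := mul_nonneg (by linarith [hu'p a]) (by linarith [hv b])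
    by_cases hab : a = b
    · subst hab
      have h1 : ¬ (a = i ∧ a = j) := fun h => hij (h.1.symm.trans h.2)
      rw [if_pos rfl, if_neg h1]
      linarith
    · rw [if_neg hab]
      by_cases h1 : a = i ∧ b = j
      · rw [if_pos h1]
        obtain ⟨rfl, rfl⟩ := h1
        rw [hu'i]
        linarith
      · rw [if_neg h1]
        linarith
  · ext a b
    rw [Matrix.mul_apply]
    have e1 : ∀ x, R a x * S x b = (if a = x then S x b else 0) +
        (if x = j then (if a = i then S x b else 0) else 0) := by
      intro x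
      have e0 : R a x = (if a = x then 1 else 0) + (if x = j then (if a = i then 1 else 0) else 0) := by
        simp only [R]
        congr 1
        split_ifs with h1 h2 h3 <;> first | rfl | (exfalso; tauto)
      rw [e0, add_mul, ite_mul, ite_mul, ite_mul, one_mul, zero_mul]
    rw [Finset.sum_congr rfl (fun x _ => e1 x), Finset.sum_add_distrib, Finset.sum_ite_eq,
      if_pos (Finset.mem_univ a), Finset.sum_ite_eq', if_pos (Finset.mem_univ j)]
    simp only [M, S]
    have hji : j ≠ i := hij.symm
    by_cases h1 : a = i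
    · subst h1
      rw [hu'i, hu'k j hji]
      by_cases h2 : b = j
      · subst h2
        have h3 : ¬ (a = b) := hij
        simp [h3, hij.symm]
        ring
      · have h3 : ¬ (j = b) := fun h => h2 h.symm
        simp [h2, h3, hij.symm]
        ring
    · rw [hu'k a h1]
      simp [h1]
  · ext a b
    rw [Matrix.mul_apply]
    have e1 : ∀ x, S a x * R x b = (if x = b then S a x else 0) +
        (if x = i then (if b = j then S a x else 0) else 0) := by
      intro x
      have e0 : R x b = (if x = b then 1 else 0) + (if x = i then (if b = j then 1 else 0) else 0) := by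
        simp only [R]
        congr 1
        split_ifs with h1 h2 h3 <;> first | rfl | (exfalso; tauto)
      rw [e0, mul_add, mul_ite, mul_ite, mul_ite, mul_one, mul_zero]
    rw [Finset.sum_congr rfl (fun x _ => e1 x), Finset.sum_add_distrib, Finset.sum_ite_eq',
      if_pos (Finset.mem_univ b), Finset.sum_ite_eq', if_pos (Finset.mem_univ i)]
    simp only [M, S]
    by_cases h1 : b = j
    · subst h1
      rw [hv'j]
      by_cases h2 : a = i
      · subst h2
        simp [hij]
        ring
      · simp [h2]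
        ring
    · rw [hv'k b h1]
      simp [h1]

/-- Two pairs of vectors with the same content and inner product, and equivalent matrices. -/
structure Lw {n : ℕ} (μ : ℤ) (u v u' v' : Fin n → ℤ) : Prop where
  cont : ∀ c, Cont u' v' c ↔ Cont u v c
  dot : ∑ k, u' k * v' k = ∑ k, u k * v k
  q : Q (M μ u v) (M μ u' v')

lemma Lw.refl {n : ℕ} (μ : ℤ) (u v : Fin n → ℤ) : Lw μ u v u v :=
  ⟨fun _ => Iff.rfl, rfl, Q.refl _⟩

lemma Lw.symm {n : ℕ} {μ : ℤ} {u v u' v' : Fin n → ℤ} (h : Lw μ u v u' v') : Lw μ u' v' u v :=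
  ⟨fun c => (h.cont c).symm, h.dot.symm, h.q.symm⟩

lemma Lw.trans {n : ℕ} {μ : ℤ} {u v u' v' u'' v'' : Fin n → ℤ} (h : Lw μ u v u' v')
    (h' : Lw μ u' v' u'' v'') : Lw μ u v u'' v'' :=
  ⟨fun c => (h'.cont c).trans (h.cont c), h'.dot.trans h.dot, h.q.trans h'.q⟩

lemma ch {n : ℕ} {μ : ℤ} (hμ : 1 ≤ μ) {i j : Fin n} (hij : i ≠ j) (t : ℕ) : ∀ u v : Fin n → ℤ,
    (∀ k, 1 ≤ u k) → (∀ k, 1 ≤ v k) → 1 ≤ u i - t * u j → μ ≤ (u i - t * u j) * v j →
    Lw μ u v (Function.update u i (u i - t * u j)) (Function.update v j (v j + t * v i)) := by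
  induction t with
  | zero =>
    intro u v _ _ _ _
    have e1 : Function.update u i (u i - ((0 : ℕ) : ℤ) * u j) = u := by
      rw [Nat.cast_zero, zero_mul, sub_zero, Function.update_eq_self]
    have e2 : Function.update v j (v j + ((0 : ℕ) : ℤ) * v i) = v := by
      rw [Nat.cast_zero, zero_mul, add_zero, Function.update_eq_self]
    rw [e1, e2]
    exact Lw.refl _ _ _
  | succ t ih =>
    intro u v hu hv h1 h2
    push_cast at h1 h2
    have ht : (0 : ℤ) ≤ t := Int.natCast_nonneg t
    have hj := hu j
    have htj : 0 ≤ (t : ℤ) * u j := mul_nonneg ht (by linarith)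
    have hlt : u j < u i := by nlinarith
    have hm : μ ≤ (u i - u j) * v j := by
      have hvj := hv j
      nlinarith
    have q1 := mv hμ hu hv hij hlt hm
    set u1 := Function.update u i (u i - u j) with hu1
    set v1 := Function.update v j (v j + v i) with hv1
    have a1 : u1 i = u i - u j := by rw [hu1, Function.update_self]
    have a2 : u1 j = u j := by rw [hu1, Function.update_of_ne hij.symm]
    have a3 : v1 j = v j + v i := by rw [hv1, Function.update_self]
    have a4 : v1 i = v i := by rw [hv1, Function.update_of_ne hij]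
    have p1 : ∀ k, 1 ≤ u1 k := fun k => by
      by_cases hk : k = i
      · subst hk; rw [a1]; linarith
      · rw [hu1, Function.update_of_ne hk]; exact hu k
    have p2 : ∀ k, 1 ≤ v1 k := fun k => by
      by_cases hk : k = j
      · subst hk; rw [a3]; linarith [hv k, hv i]
      · rw [hv1, Function.update_of_ne hk]; exact hv k
    have b1 : 1 ≤ u1 i - t * u1 j := by rw [a1, a2]; linarith
    have b2 : μ ≤ (u1 i - t * u1 j) * v1 j := by
      rw [a1, a2, a3]
      have hvi := hv i
      nlinarith
    have q2 := ih u1 v1 p1 p2 b1 b2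
    have e1 : Function.update u1 i (u1 i - t * u1 j) =
        Function.update u i (u i - ((t + 1 : ℕ) : ℤ) * u j) := by
      rw [a1, a2, hu1, Function.update_idem]
      congr 1
      push_cast; ring
    have e2 : Function.update v1 j (v1 j + t * v1 i) =
        Function.update v j (v j + ((t + 1 : ℕ) : ℤ) * v i) := by
      rw [a3, a4, hv1, Function.update_idem]
      congr 1
      push_cast; ring
    rw [e1, e2] at q2
    exact Lw.trans ⟨fun c => cont_move hij c, dot_move hij, q1⟩ q2

/-- Subtracting `t u_j` from `u_i`. -/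
lemma chs {n : ℕ} {μ : ℤ} (hμ : 1 ≤ μ) {i j : Fin n} (hij : i ≠ j) {t : ℤ} (ht : 0 ≤ t)
    {u v u' v' : Fin n → ℤ} (hu : ∀ k, 1 ≤ u k) (hv : ∀ k, 1 ≤ v k)
    (e1 : ∀ k, u' k = if k = i then u i - t * u j else u k)
    (e2 : ∀ k, v' k = if k = j then v j + t * v i else v k)
    (h1 : 1 ≤ u i - t * u j) (h2 : μ ≤ (u i - t * u j) * v j) : Lw μ u v u' v' := by
  obtain ⟨s, rfl⟩ := Int.eq_ofNat_of_zero_le ht
  have := ch hμ hij s u v hu hv h1 h2
  have f1 : u' = Function.update u i (u i - s * u j) := by
    ext k
    rw [e1, Function.update_apply]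
  have f2 : v' = Function.update v j (v j + s * v i) := by
    ext k
    rw [e2, Function.update_apply]
  rw [f1, f2]
  exact this

/-- Adding `t u_j` to `u_i`. -/
lemma chr {n : ℕ} {μ : ℤ} (hμ : 1 ≤ μ) {i j : Fin n} (hij : i ≠ j) {t : ℤ} (ht : 0 ≤ t)
    {u v u' v' : Fin n → ℤ} (hu : ∀ k, 1 ≤ u k) (hv : ∀ k, 1 ≤ v k)
    (e1 : ∀ k, u' k = if k = i then u i + t * u j else u k)
    (e2 : ∀ k, v' k = if k = j then v j - t * v i else v k)
    (h1 : 1 ≤ v j - t * v i) (h2 : μ ≤ u i * (v j - t * v i)) : Lw μ u v u' v' := by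
  have a1 : u' i = u i + t * u j := by rw [e1, if_pos rfl]
  have a2 : u' j = u j := by rw [e1, if_neg hij.symm]
  have a3 : v' j = v j - t * v i := by rw [e2, if_pos rfl]
  have a4 : v' i = v i := by rw [e2, if_neg hij]
  refine (chs hμ hij ht (u := u') (v := v') (u' := u) (v' := v) ?_ ?_ ?_ ?_ ?_ ?_).symm
  · intro k
    by_cases hk : k = i
    · subst hk; rw [a1]
      have := mul_nonneg ht (by linarith [hu j] : 0 ≤ u j)
      linarith [hu k]
    · rw [e1, if_neg hk]; exact hu k
  · intro k
    by_cases hk : k = j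
    · subst hk; rw [a3]; exact h1
    · rw [e2, if_neg hk]; exact hv k
  · intro k
    by_cases hk : k = i
    · subst hk; rw [if_pos rfl, a1, a2]; ring
    · rw [if_neg hk, e1, if_neg hk]
  · intro k
    by_cases hk : k = j
    · subst hk; rw [if_pos rfl, a3, a4]; ring
    · rw [if_neg hk, e2, if_neg hk]
  · rw [a1, a2]; linarith [hu i]
  · rw [a1, a2, a3]
    have : u i + t * u j - t * u j = u i := by ring
    rw [this]; exact h2

/-- Relabelling the indices. -/
lemma perm_lw {n : ℕ} {μ : ℤ} (hμ : 0 ≤ μ) (σ : Equiv.Perm (Fin n)) {u v : Fin n → ℤ}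
    (hu : ∀ k, 1 ≤ u k) (hv : ∀ k, 1 ≤ v k) :
    Lw μ u v (fun k => u (σ k)) (fun k => v (σ k)) := by
  refine ⟨fun c => ⟨fun h i j => ?_, fun h i j => h _ _⟩, ?_, ?_⟩
  · have := h (σ.symm i) (σ.symm j)
    simpa using this
  · exact Equiv.sum_comp σ (fun k => u k * v k)
  · have hM : ∀ a b, 0 ≤ M μ u v a b := fun a b => by
      simp only [M]
      have := mul_nonneg (by linarith [hu a] : 0 ≤ u a) (by linarith [hv b] : 0 ≤ v b)
      split_ifs <;> linarith
    let R : Matrix (Fin n) (Fin n) ℤ := fun a b => if a = σ b then 1 else 0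
    let S : Matrix (Fin n) (Fin n) ℤ := fun a b => M μ u v (σ a) b
    refine Q.of_elem R S ?_ ?_ ?_ ?_
    · intro a b
      simp only [R]
      split_ifs <;> norm_num
    · intro a b
      exact hM _ _
    · ext a b
      rw [Matrix.mul_apply]
      have e1 : ∀ x, R a x * S x b = if σ.symm a = x then M μ u v a b else 0 := by
        intro x
        simp only [R, S]
        by_cases hx : a = σ x
        · have : σ.symm a = x := by rw [hx]; simp
          rw [if_pos hx, if_pos this, one_mul, hx]
        · have : σ.symm a ≠ x := fun h => hx (by rw [← h]; simp)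
          rw [if_neg hx, if_neg this, zero_mul]
      rw [Finset.sum_congr rfl (fun x _ => e1 x), Finset.sum_ite_eq, if_pos (Finset.mem_univ _)]
    · ext a b
      rw [Matrix.mul_apply]
      have e1 : ∀ x, S a x * R x b = if x = σ b then M μ u v (σ a) x else 0 := by
        intro x
        simp only [R, S]
        rw [mul_ite, mul_one, mul_zero]
      rw [Finset.sum_congr rfl (fun x _ => e1 x), Finset.sum_ite_eq', if_pos (Finset.mem_univ _)]
      simp only [M]
      congr 1
      simp

end Pool.Agent.N447.SS
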