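import Pool.Agent.N447.SS.Fin

/-!
# The classification with arbitrary content, stated for matrices over `ℕ`
-/

set_option autoImplicit false

namespace Pool.Agent.N447.SS

open Matrix Pool.Agent.TH441.SSE2 Pool.Agent.R647.SS

/-- Either the content of `A - μ I` is at least `|μ|`, or `μ > 0` and some entry of `A - μ I` is
small with respect to the trace. -/
def Fn {n : ℕ} (μ : ℤ) (A : Matrix (Fin n) (Fin n) ℕ) : Prop :=
  μ.natAbs ≤ ct μ A ∨
    (0 < μ ∧ ∃ i j, 64 * (n : ℤ) ^ 3 * μ ^ 4 * Dv μ A i j ≤ (Dv μ A).trace)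

lemma cont_iff' {n : ℕ} {μ : ℤ} {A : Matrix (Fin n) (Fin n) ℕ} {u v : Fin n → ℤ}
    (h : ∀ i j, Dv μ A i j = u i * v j) (c : ℤ) : Cont u v c ↔ c ∣ (ct μ A : ℤ) := by
  rw [cont_iff h, ← Int.natAbs_dvd_natAbs, Int.natAbs_natCast]

lemma trace_Dv {n : ℕ} {μ : ℤ} {A : Matrix (Fin n) (Fin n) ℕ} {u v : Fin n → ℤ}
    (h : ∀ i j, Dv μ A i j = u i * v j) : (Dv μ A).trace = dt u v :=
  Finset.sum_congr rfl fun i _ => h i i

lemma reach_class {m : ℕ} {μ : ℤ} {A : Matrix (Fin (m + 3)) (Fin (m + 3)) ℕ}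
    {u v : Fin (m + 3) → ℤ} (hu : ∀ k, 1 ≤ u k) (hv : ∀ k, 1 ≤ v k)
    (h : ∀ i j, Dv μ A i j = u i * v j) (hF : Fn μ A) :
    Pc m μ (dt u v) (ct μ A) ∧ Q (M μ u v) (cm m μ (dt u v) (ct μ A : ℤ)) := by
  have hc := cont_iff' h
  have hcd : Cont u v (ct μ A : ℤ) := (hc _).mpr dvd_rfl
  have hterm : ∀ i j, (ct μ A : ℤ) ≤ u i * v j := fun i j =>
    le_of_dvd_pos (hcd i j) (mul_pos (by linarith [hu i]) (by linarith [hv j]))
  have hct1 : 1 ≤ ct μ A := by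
    rcases Nat.eq_zero_or_pos (ct μ A) with h0 | h0
    · exfalso
      have := hcd 0 0
      rw [h0, Nat.cast_zero, zero_dvd_iff] at this
      have := mul_pos (by linarith [hu 0] : 0 < u 0) (by linarith [hv 0] : 0 < v 0)
      linarith
    · exact h0
  have hdN : (ct μ A : ℤ) ∣ dt u v := Finset.dvd_sum fun k _ => hcd k k
  have hle : (m + 3) * (ct μ A : ℤ) ≤ dt u v := by
    have h1 : ∑ _i : Fin (m + 3), (ct μ A : ℤ) ≤ dt u v := Finset.sum_le_sum fun i _ => hterm i i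
    rw [Finset.sum_const, Finset.card_univ, Fintype.card_fin, nsmul_eq_mul] at h1
    push_cast at h1
    exact h1
  have hct1' : (1 : ℤ) ≤ ct μ A := by exact_mod_cast hct1
  rcases hF with hF | ⟨hF1, i, j, hF2⟩
  · have hF' : |μ| ≤ (ct μ A : ℤ) := by
      rw [Int.abs_eq_natAbs]
      exact_mod_cast hF
    refine ⟨⟨Or.inr hF', hct1, hdN, hle⟩, ?_⟩
    refine Q_of_same ⟨hu, hv, _, hF', hcd⟩ ⟨fun _ => le_rfl, fun k => ?_, ct μ A, hF',
      (cont_cv m hdN _).mpr dvd_rfl⟩ ?_ ?_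
    · rw [cv]
      split_ifs
      · linarith
      · exact hct1'
    · exact (dt_cv m _ _).symm
    · intro c
      exact (hc c).trans (cont_cv m hdN c).symm
  · refine ⟨⟨Or.inl hF1, hct1, hdN, hle⟩, ?_⟩
    rw [trace_Dv h, h] at hF2
    push_cast at hF2
    exact reach_small (by linarith) hu hv hct1' hc (i := i) (j := j) hF2

theorem fin_two {n m : ℕ} (hn : 3 ≤ n) (hm : 3 ≤ m) {μ : ℤ} (hμ : μ ≠ 0)
    {A : Matrix (Fin n) (Fin n) ℕ} {B : Matrix (Fin m) (Fin m) ℕ} (iA : Irr A) (iB : Irr B)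
    (rA : RkOne (Dv μ A)) (rB : RkOne (Dv μ B)) (hN : 9 * (n : ℤ) * μ ^ 2 ≤ (Dv μ A).trace)
    (fA : Fn μ A) (fB : Fn μ B) :
    (SEZ (A.map (Nat.cast : ℕ → ℤ)) (B.map (Nat.cast : ℕ → ℤ)) →
      n = m ∧ A.trace = B.trace ∧
        ∀ c : ℕ, c.Coprime μ.natAbs → (c ∣ ct μ A ↔ c ∣ ct μ B)) ∧
    ((n = m ∧ A.trace = B.trace ∧
        ∀ c : ℕ, c.Coprime μ.natAbs → (c ∣ ct μ A ↔ c ∣ ct μ B)) →
      Q (A.map (Nat.cast : ℕ → ℤ)) (B.map (Nat.cast : ℕ → ℤ))) := by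
  obtain ⟨k, rfl⟩ : ∃ k, n = k + 3 := ⟨n - 3, by omega⟩
  obtain ⟨l, rfl⟩ : ∃ l, m = l + 3 := ⟨m - 3, by omega⟩
  obtain ⟨u, v, hu, hv, h⟩ := class_three iA rA
  obtain ⟨u', v', hu', hv', h'⟩ := class_three iB rB
  have eA := map_eq_M h
  have eB := map_eq_M h'
  have tA : ((A.trace : ℕ) : ℤ) = (k + 3 : ℕ) * μ + dt u v := by
    rw [trace_cast, eA, trace_M]
  have tB : ((B.trace : ℕ) : ℤ) = (l + 3 : ℕ) * μ + dt u' v' := by
    rw [trace_cast, eB, trace_M]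
  rw [trace_Dv h] at hN
  push_cast at hN
  have hcop : ∀ c : ℕ, c.Coprime μ.natAbs ↔ IsCoprime (c : ℤ) μ := fun c => by
    rw [Int.isCoprime_iff_gcd_eq_one, Int.gcd, Int.natAbs_natCast]
  have hcA := cont_iff' h
  have hcB := cont_iff' h'
  have hk : (0 : ℤ) ≤ k := Int.natCast_nonneg k
  have hμ2 : |μ| ≤ μ ^ 2 := by
    have h1 := Int.one_le_abs hμ
    rw [← sq_abs]
    nlinarith
  have hbig : |μ| < dt u v := by
    have h1 := Int.one_le_abs hμ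
    nlinarith
  constructor
  · intro hs
    rw [eA, eB] at hs
    have h2 := neg_abs_le μ
    have hpos : 0 < dt u v := lt_of_le_of_lt (abs_nonneg μ) hbig
    have hd := inv_dom (μ := μ) (μ' := μ) ⟨0, by linarith [hv 0]⟩
      (fun h0 => by linarith) (fun h0 => by linarith) hs
    have hnm := inv_size hμ hd hs
    have h4 : ((k + 3 : ℕ) : ℤ) = ((l + 3 : ℕ) : ℤ) := by rw [hnm]
    refine ⟨hnm, ?_, fun c hc => ?_⟩
    · have : ((A.trace : ℕ) : ℤ) = ((B.trace : ℕ) : ℤ) := by rw [tA, tB, h4]; linarith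
      exact_mod_cast this
    · rw [hcop] at hc
      rw [← Int.natCast_dvd_natCast, ← Int.natCast_dvd_natCast, ← hcA, ← hcB]
      exact ⟨fun h1 => inv_cont hd hs h1 hc, fun h1 => inv_cont hd.symm hs.symm h1 hc⟩
  · rintro ⟨h1, h2, h3⟩
    have h4 : k = l := by omega
    subst h4
    rw [eA, eB]
    have h5 : dt u v = dt u' v' := by
      have : ((A.trace : ℕ) : ℤ) = ((B.trace : ℕ) : ℤ) := by rw [h2]
      rw [tA, tB] at this
      linarith
    obtain ⟨pA, qA⟩ := reach_class hu hv h fA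
    obtain ⟨pB, qB⟩ := reach_class hu' hv' h' fB
    rw [← h5] at pB qB
    exact (qA.trans (contents hμ hN pA pB fun c hc => h3 c ((hcop c).mpr hc))).trans qB.symm

end Pool.Agent.N447.SS
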