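import Pool.Agent.N447.SS.Mv

/-!
# Rank one perturbations of scalar matrices: reduction of `(1, w)` with one large entry
-/

set_option autoImplicit false

namespace Pool.Agent.N447.SS

open Matrix Pool.Agent.TH441.SSE2 Pool.Agent.R647.SS

/-- The all one vector. -/
abbrev on (n : ℕ) : Fin n → ℤ := fun _ => 1

lemma on_pos (n : ℕ) : ∀ k, 1 ≤ on n k := fun _ => le_rfl

/-- Moving `w_i` from `l` to the large entry `z`. -/
lemma gs {n : ℕ} {μ : ℤ} (hμ : 1 ≤ μ) {w w' : Fin n → ℤ} (hw : ∀ k, 1 ≤ w k) {i l z : Fin n}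
    (hil : i ≠ l) (hiz : i ≠ z) (hlz : l ≠ z) (hlt : w i < w l) (hz : μ + (μ - 1) * w i ≤ w z)
    (e : ∀ k, w' k = if k = l then w l - w i else if k = z then w z + w i else w k) :
    Lw μ (on n) w (on n) w' := by
  have hwi := hw i
  have a1 : w' l = w l - w i := by rw [e, if_pos rfl]
  have a2 : w' z = w z + w i := by rw [e, if_neg hlz.symm, if_pos rfl]
  have a3 : w' i = w i := by rw [e, if_neg hil, if_neg hiz]
  have hw' : ∀ k, 1 ≤ w' k := fun k => by
    rw [e]
    split_ifs
    · linarith
    · linarith [hw z]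
    · exact hw k
  set xu : Fin n → ℤ := fun k => if k = i then μ else 1 with hxu
  set xv : Fin n → ℤ := fun k => if k = z then w z - (μ - 1) * w i else w k with hxv
  have s1 : Lw μ (on n) w xu xv := by
    refine chr hμ hiz (t := μ - 1) (by linarith) (on_pos n) hw ?_ ?_ (by linarith) (by
      show μ ≤ 1 * _
      linarith)
    · intro k
      simp only [hxu]
      split_ifs <;> ring
    · intro k
      simp only [hxv]
  set u1 : Fin n → ℤ := fun k => if k = i then 1 + μ else 1 with hu1
  set v1 : Fin n → ℤ := fun k => if k = z then w z + w i - μ * w i else w' k with hv1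
  have hz1 : μ ≤ w z + w i - μ * w i := by linarith
  have s2 : Lw μ (on n) w' u1 v1 := by
    refine chr hμ hiz (t := μ) (by linarith) (on_pos n) hw' ?_ ?_ (by rw [a2, a3]; linarith) (by
      rw [a2, a3]
      show μ ≤ 1 * _
      linarith)
    · intro k
      simp only [hu1]
      split_ifs <;> ring
    · intro k
      simp only [hv1, a2, a3]
  have s3 : Lw μ u1 v1 xu xv := by
    have b1 : u1 i = 1 + μ := by simp only [hu1, if_pos]
    have b2 : u1 l = 1 := by simp only [hu1, if_neg hil.symm]
    have b3 : v1 l = w l - w i := by simp only [hv1, if_neg hlz, a1]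
    have b4 : v1 i = w i := by simp only [hv1, if_neg hiz, a3]
    refine chs hμ hil (t := 1) (by norm_num) ?_ ?_ ?_ ?_ ?_ ?_
    · intro k
      simp only [hu1]
      split_ifs <;> linarith
    · intro k
      simp only [hv1]
      split_ifs
      · linarith
      · exact hw' k
    · intro k
      rw [b1, b2]
      simp only [hxu, hu1]
      split_ifs <;> ring
    · intro k
      rw [b3, b4]
      simp only [hxv, hv1]
      by_cases hk : k = l
      · subst hk
        rw [if_neg hlz, if_pos rfl]; ring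
      · rw [if_neg hk, e k, if_neg hk]
        by_cases hkz : k = z
        · rw [if_pos hkz, if_pos hkz]; ring
        · rw [if_neg hkz, if_neg hkz, if_neg hkz]
    · rw [b1, b2]; linarith
    · rw [b1, b2, b3]
      have h5 : 1 ≤ w l - w i := by linarith
      nlinarith
  exact s1.trans (s2.trans s3).symm

/-- Moving `t w_i` from `z` to `l`, where `t` is large. -/
lemma tr {n : ℕ} {μ : ℤ} (hμ : 1 ≤ μ) {w w' : Fin n → ℤ} (hw : ∀ k, 1 ≤ w k) {i l z : Fin n}
    (hil : i ≠ l) (hiz : i ≠ z) (hlz : l ≠ z) {t r : ℤ} (hr : 1 ≤ r) (ht : 3 * μ ≤ t)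
    (hz : w z = r + t * w i)
    (e : ∀ k, w' k = if k = z then r else if k = l then w l + t * w i else w k) :
    Lw μ (on n) w (on n) w' := by
  have hwi := hw i
  have hwl := hw l
  have hti : 0 ≤ t * w i := mul_nonneg (by linarith) (by linarith)
  have hμi : μ ≤ μ * w i := by nlinarith
  have a1 : w' l = w l + t * w i := by rw [e, if_neg hlz, if_pos rfl]
  have a2 : w' z = r := by rw [e, if_pos rfl]
  have a3 : w' i = w i := by rw [e, if_neg hiz, if_neg hil]
  have hw' : ∀ k, 1 ≤ w' k := fun k => by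
    rw [e]
    split_ifs
    · linarith
    · linarith
    · exact hw k
  set xu : Fin n → ℤ := fun k => if k = i then 1 + t - 2 * μ else 1 with hxu
  set xv : Fin n → ℤ := fun k => if k = z then r + μ * w i else if k = l then w l + μ * w i
    else w k with hxv
  set u1 : Fin n → ℤ := fun k => if k = i then 1 + (t - μ) else 1 with hu1
  have u1p : ∀ k, 1 ≤ u1 k := fun k => by
    simp only [hu1]
    split_ifs <;> linarith
  have u1i : u1 i = 1 + (t - μ) := by simp only [hu1, if_pos]
  have u1l : u1 l = 1 := by simp only [hu1, if_neg hil.symm]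
  have u1z : u1 z = 1 := by simp only [hu1, if_neg hiz.symm]
  -- from `w`
  set v1 : Fin n → ℤ := fun k => if k = z then r + μ * w i else w k with hv1
  have v1p : ∀ k, 1 ≤ v1 k := fun k => by
    simp only [hv1]
    split_ifs
    · linarith
    · exact hw k
  have s1 : Lw μ (on n) w u1 v1 := by
    refine chr hμ hiz (t := t - μ) (by linarith) (on_pos n) hw ?_ ?_ (by rw [hz]; linarith) (by
      rw [hz]
      show μ ≤ 1 * _
      linarith)
    · intro k
      simp only [hu1]
      split_ifs <;> ring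
    · intro k
      simp only [hv1]
      split_ifs
      · rw [hz]; ring
      · rfl
  have s2 : Lw μ u1 v1 xu xv := by
    have b3 : v1 l = w l := by simp only [hv1, if_neg hlz]
    have b4 : v1 i = w i := by simp only [hv1, if_neg hiz]
    refine chs hμ hil (t := μ) (by linarith) u1p v1p ?_ ?_ ?_ ?_
    · intro k
      rw [u1i, u1l]
      simp only [hxu, hu1]
      split_ifs <;> ring
    · intro k
      rw [b3, b4]
      simp only [hxv, hv1]
      by_cases hk : k = l
      · subst hk
        rw [if_neg hlz, if_pos rfl, if_pos rfl]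
      · rw [if_neg hk, if_neg hk]
    · rw [u1i, u1l]; linarith
    · rw [u1i, u1l, b3]
      nlinarith
  -- from `w'`
  set v2 : Fin n → ℤ := fun k => if k = l then w l + μ * w i else w' k with hv2
  have v2p : ∀ k, 1 ≤ v2 k := fun k => by
    simp only [hv2]
    split_ifs
    · linarith
    · exact hw' k
  have s3 : Lw μ (on n) w' u1 v2 := by
    refine chr hμ hil (t := t - μ) (by linarith) (on_pos n) hw' ?_ ?_ (by
      rw [a1, a3]; linarith) (by
      rw [a1, a3]
      show μ ≤ 1 * _
      linarith)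
    · intro k
      simp only [hu1]
      split_ifs <;> ring
    · intro k
      simp only [hv2]
      split_ifs
      · rw [a1, a3]; ring
      · rfl
  have s4 : Lw μ u1 v2 xu xv := by
    have b3 : v2 z = r := by simp only [hv2, if_neg hlz.symm, a2]
    have b4 : v2 i = w i := by simp only [hv2, if_neg hil, a3]
    refine chs hμ hiz (t := μ) (by linarith) u1p v2p ?_ ?_ ?_ ?_
    · intro k
      rw [u1i, u1z]
      simp only [hxu, hu1]
      split_ifs <;> ring
    · intro k
      rw [b3, b4]
      simp only [hxv, hv2]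
      by_cases hk : k = z
      · rw [if_pos hk, if_pos hk]
      · rw [if_neg hk, if_neg hk, e k, if_neg hk]
        split_ifs <;> rfl
    · rw [u1i, u1z]; linarith
    · rw [u1i, u1z, b3]
      nlinarith
  exact (s1.trans s2).trans (s3.trans s4).symm

variable {m : ℕ}

/-- All entries with index different from `0` can be made equal. -/
lemma stA {μ C : ℤ} (hμ : 1 ≤ μ) (B : ℕ) : ∀ w : Fin (m + 3) → ℤ, (∀ k, 1 ≤ w k) → w 1 ≤ C →
    μ + (μ - 1) * C ≤ w 0 → ∑ i, w i - w 0 ≤ B → ∃ (w' : Fin (m + 3) → ℤ) (d : ℤ),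
      Lw μ (on _) w (on _) w' ∧ (∀ k, 1 ≤ w' k) ∧ (∀ l, l ≠ 0 → w' l = d) ∧
      (∀ l, l ≠ 0 → d ≤ w l) ∧ w 0 ≤ w' 0 := by
  have h10 : (1 : Fin (m + 3)) ≠ 0 := n10
  induction B with
  | zero =>
    intro w h _ _ hB
    exfalso
    have h1 : w 0 + w 1 ≤ ∑ i, w i := by
      have h2 : ∑ i ∈ ({0, 1} : Finset (Fin (m + 3))), w i ≤ ∑ i, w i :=
        Finset.sum_le_sum_of_subset_of_nonneg (Finset.subset_univ _)
          (fun i _ _ => by linarith [h i])
      rwa [Finset.sum_pair n10.symm] at h2
    have h3 := h 1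
    push_cast at hB
    linarith
  | succ B ih =>
    intro w h h1C h0 hB
    by_cases hex : ∃ i l, i ≠ 0 ∧ l ≠ 0 ∧ w i < w l ∧ w i ≤ C
    · obtain ⟨i, l, hi, hl, hlt, hiC⟩ := hex
      have hil : i ≠ l := by rintro rfl; exact lt_irrefl _ hlt
      set w1 : Fin (m + 3) → ℤ := fun k => if k = l then w l - w i else
        if k = 0 then w 0 + w i else w k with hw1
      have hz : μ + (μ - 1) * w i ≤ w 0 := by nlinarith
      have hs := gs hμ h hil hi hl hlt hz (w' := w1) (fun k => rfl)
      have e0 : w1 0 = w 0 + w i := by simp only [hw1, if_neg hl.symm, if_pos]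
      have hw1p : ∀ k, 1 ≤ w1 k := fun k => by
        simp only [hw1]
        split_ifs
        · linarith
        · linarith [h 0, h i]
        · exact h k
      have hle : ∀ k, k ≠ 0 → w1 k ≤ w k := fun k hk => by
        simp only [hw1]
        by_cases hkl : k = l
        · subst hkl
          rw [if_pos rfl]; linarith [h i]
        · rw [if_neg hkl, if_neg hk]
      have hsum : ∑ k, w1 k = ∑ k, w k := by
        have := hs.dot
        simpa using this
      have hB' : ∑ k, w1 k - w1 0 ≤ B := by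
        rw [hsum, e0]
        have := h i
        push_cast at hB
        linarith
      obtain ⟨w', d, c1, c2, c3, c4, c5⟩ := ih w1 hw1p ((hle 1 h10).trans h1C)
        (by rw [e0]; linarith [h i]) hB'
      exact ⟨w', d, hs.trans c1, c2, c3, fun l hl => (c4 l hl).trans (hle l hl), by
        rw [e0] at c5; linarith [h i]⟩
    · push Not at hex
      have a1 : ∀ l, l ≠ 0 → w l ≤ w 1 := fun l hl => by
        by_contra hc
        push Not at hc
        exact absurd h1C (not_le.mpr (hex 1 l h10 hl hc))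
      have a2 : ∀ l, l ≠ 0 → w 1 ≤ w l := fun l hl => by
        by_contra hc
        push Not at hc
        exact absurd ((a1 l hl).trans h1C) (not_le.mpr (hex l 1 hl h10 hc))
      exact ⟨w, w 1, Lw.refl _ _ _, h, fun l hl => le_antisymm (a1 l hl) (a2 l hl), a2, le_rfl⟩

lemma can5 {μ C : ℤ} (hμ : 1 ≤ μ) (B : ℕ) : ∀ (w : Fin (m + 3) → ℤ) (d : ℤ), (∀ k, 1 ≤ w k) →
    (∀ l, l ≠ 0 → w l = d) → d ≤ C → (3 * μ + 1) * C ≤ w 0 → d ≤ B →
    ∃ (w' : Fin (m + 3) → ℤ) (g : ℤ), Lw μ (on _) w (on _) w' ∧ (∀ k, 1 ≤ w' k) ∧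
      (∀ l, l ≠ 0 → w' l = g) ∧ g ∣ w' 0 := by
  have h10 : (1 : Fin (m + 3)) ≠ 0 := n10
  have h12 : (1 : Fin (m + 3)) ≠ 2 := n12
  have h02 : (0 : Fin (m + 3)) ≠ 2 := n02
  induction B with
  | zero =>
    intro w d h hd _ _ hB
    have := h 1
    rw [hd 1 h10] at this
    push_cast at hB
    linarith
  | succ B ih =>
    intro w d h hd hC h0 hB
    by_cases hdv : d ∣ w 0
    · exact ⟨w, d, Lw.refl _ _ _, h, hd, hdv⟩
    · have hw1 : w 1 = d := hd 1 h10
      have hw2 : w 2 = d := hd 2 h02.symm
      have hdpos : 1 ≤ d := hw1 ▸ h 1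
      have hr0 : 0 ≤ w 0 % d := Int.emod_nonneg _ (by linarith)
      have hr1 : w 0 % d < d := Int.emod_lt_of_pos _ (by linarith)
      have hr2 : w 0 % d ≠ 0 := fun h => hdv (Int.dvd_of_emod_eq_zero h)
      have hdiv : d * (w 0 / d) + w 0 % d = w 0 := Int.mul_ediv_add_emod (w 0) d
      set r := w 0 % d with hr
      set t := w 0 / d with ht
      have hr3 : 1 ≤ r := by
        rcases hr0.lt_or_eq with h | h
        · exact h
        · exact absurd h.symm hr2
      have ht3 : 3 * μ ≤ t := by
        have : 3 * μ + 1 ≤ t := by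
          rw [ht]
          apply (Int.le_ediv_iff_mul_le (by linarith)).mpr
          nlinarith
        linarith
      set w1 : Fin (m + 3) → ℤ := fun k => if k = 0 then r else if k = 2 then w 2 + t * w 1 else w k
        with hw1d
      have s1 := tr hμ h h12 h10 h02.symm hr3 ht3 (by rw [hw1]; linarith) (w' := w1) (fun k => rfl)
      have htd : 0 ≤ t * d := mul_nonneg (by linarith) (by linarith)
      have w1p : ∀ k, 1 ≤ w1 k := fun k => by
        simp only [hw1d]
        split_ifs
        · exact hr3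
        · rw [hw2, hw1]; linarith
        · exact h k
      have s2 := perm_lw (μ := μ) (by linarith) (Equiv.swap (0 : Fin (m + 3)) 2) (on_pos (m + 3)) w1p
      set w2 : Fin (m + 3) → ℤ := fun k => w1 (Equiv.swap (0 : Fin (m + 3)) 2 k) with hw2d
      have x0 : w2 0 = d + t * d := by
        simp only [hw2d, Equiv.swap_apply_left, hw1d, if_neg h02.symm, if_pos, hw1, hw2]
      have x1 : w2 1 = d := by
        simp only [hw2d, Equiv.swap_apply_of_ne_of_ne h10 h12, hw1d, if_neg h10, if_neg h12, hw1]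
      have x2 : w2 2 = r := by
        simp only [hw2d, Equiv.swap_apply_right, hw1d, if_pos]
      have hx0 : (3 * μ + 1) * C ≤ w2 0 := by
        rw [x0]
        nlinarith
      have hstep : μ + (μ - 1) * C ≤ w2 0 := by
        have hC1 : 1 ≤ C := hdpos.trans hC
        nlinarith
      obtain ⟨w3, d3, c1, c2, c3, c4, c5⟩ := stA hμ (C := C) (∑ i, w2 i - w2 0).toNat w2
        (fun k => w1p _) (by rw [x1]; exact hC) hstep (Int.self_le_toNat _)
      have hd3 : d3 < d := (c4 2 h02.symm).trans_lt (by rw [x2]; exact hr1)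
      obtain ⟨w4, g, f1, f2, f3, f4⟩ := ih w3 d3 c2 c3 (by linarith) (hx0.trans c5)
        (by push_cast at hB; linarith)
      exact ⟨w4, g, (s1.trans s2).trans (c1.trans f1), f2, f3, f4⟩

/-- From `(1, w)` with `w 0` large with respect to `w 1` one reaches the canonical form. -/
lemma red5 {μ C : ℤ} (hμ : 1 ≤ μ) {w : Fin (m + 3) → ℤ} (hw : ∀ k, 1 ≤ w k) (h1 : w 1 ≤ C)
    (h0 : (3 * μ + 1) * C ≤ w 0) : ∃ g : ℤ, 1 ≤ g ∧ g ∣ ∑ i, w i ∧
      Lw μ (on _) w (on _) (cv m g (∑ i, w i)) := by
  have h10 : (1 : Fin (m + 3)) ≠ 0 := n10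
  have hC1 : 1 ≤ C := (hw 1).trans h1
  obtain ⟨w3, d3, c1, c2, c3, c4, c5⟩ := stA hμ (C := C) (∑ i, w i - w 0).toNat w
    hw h1 (by nlinarith) (Int.self_le_toNat _)
  obtain ⟨w4, g, f1, f2, f3, f4⟩ := can5 hμ (C := C) d3.toNat w3 d3 c2 c3
    ((c4 1 h10).trans h1) (h0.trans c5) (Int.self_le_toNat _)
  have hg : 1 ≤ g := f3 1 h10 ▸ f2 1
  have hL := c1.trans f1
  have hsum : ∑ k, w4 k = ∑ k, w k := by
    have := hL.dot
    simpa using this
  have h5 : w4 0 + (m + 2) * g = ∑ k, w k := by
    rw [← hsum, Fin.sum_univ_succ w4,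
      Finset.sum_congr rfl (fun (i : Fin (m + 2)) _ => f3 i.succ (Fin.succ_ne_zero i)),
      Finset.sum_const, Finset.card_univ, Fintype.card_fin, nsmul_eq_mul]
    push_cast
    ring
  refine ⟨g, hg, ?_, ?_⟩
  · rw [← h5]
    exact dvd_add f4 (Dvd.intro_left _ rfl)
  · have : w4 = cv m g (∑ i, w i) := by
      ext k
      by_cases hk : k = 0
      · subst hk
        simp only [cv, if_pos]
        linarith
      · simp only [cv, if_neg hk, f3 k hk]
    rw [← this]
    exact hL

end Pool.Agent.N447.SS
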